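import Mathlib

/-!
A cutoff function `f` with `t f'(t)` and `t^2 f''(t)` as small as we like.
-/

set_option autoImplicit false

namespace Pool.Agent.CCM

open scoped ContDiff Topology
open Set Filter

theorem st_bound1 : ∃ C : ℝ, 0 < C ∧ ∀ x : ℝ, |deriv Real.smoothTransition x| ≤ C := by
  have hs : ContDiff ℝ ∞ Real.smoothTransition := Real.smoothTransition.contDiff
  have hc : Continuous (deriv Real.smoothTransition) := hs.continuous_deriv (by norm_num)
  have hsupp : HasCompactSupport (deriv Real.smoothTransition) := by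
    apply HasCompactSupport.intro (isCompact_Icc (a := (0:ℝ)) (b := 1))
    intro x hx
    rw [mem_Icc, not_and_or, not_le, not_le] at hx
    rcases hx with h | h
    · have : Real.smoothTransition =ᶠ[𝓝 x] fun _ => 0 := by
        filter_upwards [Iio_mem_nhds h] with y hy
        exact Real.smoothTransition.zero_of_nonpos (le_of_lt hy)
      rw [this.deriv_eq]; simp
    · have : Real.smoothTransition =ᶠ[𝓝 x] fun _ => 1 := by
        filter_upwards [Ioi_mem_nhds h] with y hy
        exact Real.smoothTransition.one_of_one_le (le_of_lt hy)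
      rw [this.deriv_eq]; simp
  obtain ⟨C, hC⟩ := hsupp.exists_bound_of_continuous hc
  exact ⟨max C 1, lt_of_lt_of_le one_pos (le_max_right _ _), fun x =>
    ((Real.norm_eq_abs _).symm.le.trans (hC x)).trans (le_max_left _ _)⟩

theorem st_bound2 : ∃ C : ℝ, 0 < C ∧ ∀ x : ℝ, |deriv (deriv Real.smoothTransition) x| ≤ C := by
  have hs : ContDiff ℝ ∞ Real.smoothTransition := Real.smoothTransition.contDiff
  have hs2 : ContDiff ℝ ∞ (deriv Real.smoothTransition) := by
    have := contDiff_infty_iff_deriv.mp hs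
    exact this.2
  have hc : Continuous (deriv (deriv Real.smoothTransition)) := hs2.continuous_deriv (by norm_num)
  have hsupp : HasCompactSupport (deriv (deriv Real.smoothTransition)) := by
    apply HasCompactSupport.intro (isCompact_Icc (a := (0:ℝ)) (b := 1))
    intro x hx
    rw [mem_Icc, not_and_or, not_le, not_le] at hx
    rcases hx with h | h
    · have : Real.smoothTransition =ᶠ[𝓝 x] fun _ => 0 := by
        filter_upwards [Iio_mem_nhds h] with y hy
        exact Real.smoothTransition.zero_of_nonpos (le_of_lt hy)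
      rw [this.deriv.deriv_eq]; simp
    · have : Real.smoothTransition =ᶠ[𝓝 x] fun _ => 1 := by
        filter_upwards [Ioi_mem_nhds h] with y hy
        exact Real.smoothTransition.one_of_one_le (le_of_lt hy)
      rw [this.deriv.deriv_eq]; simp
  obtain ⟨C, hC⟩ := hsupp.exists_bound_of_continuous hc
  exact ⟨max C 1, lt_of_lt_of_le one_pos (le_max_right _ _), fun x =>
    ((Real.norm_eq_abs _).symm.le.trans (hC x)).trans (le_max_left _ _)⟩

/-- The cutoff function. -/
noncomputable def cutf (t₁ L : ℝ) (t : ℝ) : ℝ :=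
  if t ≤ 0 then 1 else Real.smoothTransition ((Real.log t₁ - Real.log t) / L)

theorem cutf_one {t₁ L t : ℝ} (ht₁ : 0 < t₁) (hL : 0 < L) (h : t ≤ t₁ * Real.exp (-L)) :
    cutf t₁ L t = 1 := by
  unfold cutf
  by_cases h0 : t ≤ 0
  · rw [if_pos h0]
  · rw [if_neg h0]
    apply Real.smoothTransition.one_of_one_le
    push Not at h0
    rw [le_div_iff₀ hL, one_mul]
    have h1 : Real.log t ≤ Real.log (t₁ * Real.exp (-L)) := Real.log_le_log h0 h
    rw [Real.log_mul ht₁.ne' (Real.exp_pos _).ne', Real.log_exp] at h1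
    linarith

theorem cutf_zero {t₁ L t : ℝ} (ht₁ : 0 < t₁) (hL : 0 < L) (h : t₁ ≤ t) : cutf t₁ L t = 0 := by
  unfold cutf
  have h0 : ¬ t ≤ 0 := by linarith [lt_of_lt_of_le ht₁ h]
  rw [if_neg h0]
  apply Real.smoothTransition.zero_of_nonpos
  apply div_nonpos_of_nonpos_of_nonneg _ hL.le
  have := Real.log_le_log ht₁ h
  linarith

theorem cutf_nonneg (t₁ L t : ℝ) : 0 ≤ cutf t₁ L t := by
  unfold cutf
  split_ifs
  · norm_num
  · exact Real.smoothTransition.nonneg _

theorem cutf_le_one (t₁ L t : ℝ) : cutf t₁ L t ≤ 1 := by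
  unfold cutf
  split_ifs
  · exact le_rfl
  · exact Real.smoothTransition.le_one _

theorem cutf_pos_eq {t₁ L t : ℝ} (ht : 0 < t) :
    cutf t₁ L =ᶠ[𝓝 t] fun t => Real.smoothTransition ((Real.log t₁ - Real.log t) / L) := by
  filter_upwards [Ioi_mem_nhds ht] with y hy
  unfold cutf
  rw [if_neg (not_le.mpr hy)]

theorem cutf_smooth {t₁ L : ℝ} (ht₁ : 0 < t₁) (hL : 0 < L) : ContDiff ℝ ∞ (cutf t₁ L) := by
  rw [contDiff_iff_contDiffAt]
  intro t
  by_cases h : t < t₁ * Real.exp (-L)
  · have : cutf t₁ L =ᶠ[𝓝 t] fun _ => 1 := by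
      filter_upwards [Iio_mem_nhds h] with y hy
      exact cutf_one ht₁ hL (le_of_lt hy)
    exact contDiffAt_const.congr_of_eventuallyEq this
  · have ht : 0 < t := lt_of_lt_of_le (by positivity) (not_lt.mp h)
    refine ContDiffAt.congr_of_eventuallyEq ?_ (cutf_pos_eq ht)
    apply Real.smoothTransition.contDiff.contDiffAt.comp
    exact (contDiffAt_const.sub (Real.contDiffAt_log.mpr ht.ne')).div_const L

theorem cutf_deriv_pos {t₁ L t : ℝ} (ht : 0 < t) :
    HasDerivAt (cutf t₁ L)
      (- deriv Real.smoothTransition ((Real.log t₁ - Real.log t) / L) / (L * t)) t := by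
  have h1 : HasDerivAt (fun t : ℝ => (Real.log t₁ - Real.log t) / L) (-(t⁻¹) / L) t := by
    have := ((Real.hasDerivAt_log ht.ne').const_sub (Real.log t₁)).div_const L
    exact this
  have h2 : HasDerivAt Real.smoothTransition
      (deriv Real.smoothTransition ((Real.log t₁ - Real.log t) / L))
      ((Real.log t₁ - Real.log t) / L) :=
    ((Real.smoothTransition.contDiff (n := 1)).differentiable (by norm_num) _).hasDerivAt
  have h3 := h2.comp t h1
  have h4 := h3.congr_of_eventuallyEq (cutf_pos_eq (t₁ := t₁) (L := L) ht)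
  refine h4.congr_deriv ?_
  rw [div_mul_eq_div_div, neg_div, neg_div, neg_div, mul_neg, div_eq_mul_inv _ t, div_eq_mul_inv,
    div_eq_mul_inv]
  ring

theorem cutf_deriv2_pos {t₁ L t : ℝ} (hL : 0 < L) (ht : 0 < t) :
    HasDerivAt (deriv (cutf t₁ L))
      (deriv (deriv Real.smoothTransition) ((Real.log t₁ - Real.log t) / L) / (L * t) ^ 2
        + deriv Real.smoothTransition ((Real.log t₁ - Real.log t) / L) / (L * t ^ 2)) t := by
  have h0 : deriv (cutf t₁ L) =ᶠ[𝓝 t]
      fun t => - deriv Real.smoothTransition ((Real.log t₁ - Real.log t) / L) / (L * t) := by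
    filter_upwards [Ioi_mem_nhds ht] with y hy
    exact (cutf_deriv_pos hy).deriv
  have hs : ContDiff ℝ ∞ Real.smoothTransition := Real.smoothTransition.contDiff
  have hs2 : ContDiff ℝ ∞ (deriv Real.smoothTransition) := by
    have := contDiff_infty_iff_deriv.mp hs
    exact this.2
  have h1 : HasDerivAt (fun t : ℝ => (Real.log t₁ - Real.log t) / L) (-(t⁻¹) / L) t := by
    have := ((Real.hasDerivAt_log ht.ne').const_sub (Real.log t₁)).div_const L
    exact this
  have h2 : HasDerivAt (deriv Real.smoothTransition)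
      (deriv (deriv Real.smoothTransition) ((Real.log t₁ - Real.log t) / L))
      ((Real.log t₁ - Real.log t) / L) :=
    (hs2.differentiable (by norm_num) _).hasDerivAt
  have h3 := (h2.comp t h1).neg
  have h4 : HasDerivAt (fun t : ℝ => L * t) L t := by
    simpa using (hasDerivAt_id t).const_mul L
  have h5 := h3.div h4 (by positivity)
  refine (h5.congr_of_eventuallyEq h0).congr_deriv ?_
  simp only [Function.comp, Pi.neg_apply]
  field_simp
  ring

/-- A cutoff function with small logarithmic derivatives. -/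
theorem exists_cutoff {ε t₁ : ℝ} (hε : 0 < ε) (ht₁ : 0 < t₁) :
    ∃ f f₁ f₂ : ℝ → ℝ, ContDiff ℝ ∞ f ∧ (∀ t, HasDerivAt f (f₁ t) t) ∧
      (∀ t, HasDerivAt f₁ (f₂ t) t) ∧ (∀ t, 0 ≤ f t) ∧ (∀ t, f t ≤ 1) ∧
      (∃ t₀ > 0, ∀ t ≤ t₀, f t = 1) ∧ (∀ t, t₁ ≤ t → f t = 0) ∧
      (∀ t, 0 ≤ t → t * |f₁ t| ≤ ε) ∧ (∀ t, 0 ≤ t → t ^ 2 * |f₂ t| ≤ ε) := by
  obtain ⟨C₁, hC₁, b₁⟩ := st_bound1
  obtain ⟨C₂, hC₂, b₂⟩ := st_bound2
  set L : ℝ := max 1 ((C₁ + C₂) / ε) with hLdef
  have hL1 : 1 ≤ L := le_max_left _ _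
  have hL : 0 < L := by linarith
  have hL2 : (C₁ + C₂) / ε ≤ L := le_max_right _ _
  have hL3 : C₁ + C₂ ≤ ε * L := by
    rw [div_le_iff₀ hε] at hL2; linarith
  have hsm := cutf_smooth ht₁ hL
  have hsm1 : ContDiff ℝ ∞ (deriv (cutf t₁ L)) := by
    have := contDiff_infty_iff_deriv.mp hsm
    exact this.2
  refine ⟨cutf t₁ L, deriv (cutf t₁ L), deriv (deriv (cutf t₁ L)), hsm,
    fun t => (hsm.differentiable (by norm_num) t).hasDerivAt,
    fun t => (hsm1.differentiable (by norm_num) t).hasDerivAt,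
    cutf_nonneg t₁ L, cutf_le_one t₁ L,
    ⟨t₁ * Real.exp (-L), by positivity, fun t ht => cutf_one ht₁ hL ht⟩,
    fun t ht => cutf_zero ht₁ hL ht, ?_, ?_⟩
  · intro t ht
    rcases ht.eq_or_lt with h0 | h0
    · rw [← h0]; simp [hε.le]
    · rw [(cutf_deriv_pos h0).deriv, abs_div, abs_neg, abs_of_pos (by positivity : 0 < L * t)]
      have e : t * (|deriv Real.smoothTransition ((Real.log t₁ - Real.log t) / L)| / (L * t))
          = |deriv Real.smoothTransition ((Real.log t₁ - Real.log t) / L)| / L := by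
        field_simp
      rw [e, div_le_iff₀ hL]
      linarith [b₁ ((Real.log t₁ - Real.log t) / L)]
  · intro t ht
    rcases ht.eq_or_lt with h0 | h0
    · rw [← h0]; simp [hε.le]
    · rw [(cutf_deriv2_pos hL h0).deriv]
      set x := (Real.log t₁ - Real.log t) / L
      have e : t ^ 2 * |deriv (deriv Real.smoothTransition) x / (L * t) ^ 2
          + deriv Real.smoothTransition x / (L * t ^ 2)|
          = |deriv (deriv Real.smoothTransition) x / L ^ 2 + deriv Real.smoothTransition x / L| := by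
        rw [← abs_of_pos (by positivity : 0 < t ^ 2), ← abs_mul, abs_of_pos (by positivity : 0 < t ^ 2)]
        congr 1
        field_simp
      rw [e]
      refine (abs_add_le _ _).trans ?_
      rw [abs_div, abs_div, abs_of_pos (by positivity : 0 < L ^ 2), abs_of_pos hL]
      have h1 : |deriv (deriv Real.smoothTransition) x| / L ^ 2 ≤ C₂ / L := by
        rw [div_le_div_iff₀ (by positivity) hL]
        have := b₂ x
        nlinarith [abs_nonneg (deriv (deriv Real.smoothTransition) x), mul_pos hC₂ hL]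
      have h2 : |deriv Real.smoothTransition x| / L ≤ C₁ / L :=
        div_le_div_of_nonneg_right (b₁ x) hL.le
      have h3 : C₂ / L + C₁ / L ≤ ε := by
        rw [← add_div, div_le_iff₀ hL]; linarith
      linarith

end Pool.Agent.CCM
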