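import Mathlib
import Pool.Agent.Lib_helper77.CurvLower
import Pool.Agent.CCM.Cutoff

/-!
The metric `(1 + |y|^2)^(-2) <u, v> + c f(|y|^2) Om(y, u) Om(y, v)` on Euclidean space: derivatives
and second derivatives.
-/

set_option autoImplicit false
set_option maxSynthPendingDepth 3

open scoped Manifold ContDiff Topology

namespace Pool.Agent.CCM

open Pool.Agent.Lib_helper77

/-- Euclidean space. -/
abbrev EE (d : ℕ) : Type := EuclideanSpace ℝ (Fin d)

section rad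

/-- The conformal factor of the round metric as a function of the square of the norm. -/
noncomputable def ph (t : ℝ) : ℝ := ((1 + t) ^ 2)⁻¹
/-- Its derivative. -/
noncomputable def ph1 (t : ℝ) : ℝ := -2 * ((1 + t) ^ 3)⁻¹
/-- Its second derivative. -/
noncomputable def ph2 (t : ℝ) : ℝ := 6 * ((1 + t) ^ 4)⁻¹

theorem ph_deriv {t : ℝ} (ht : 0 ≤ t) : HasDerivAt ph (ph1 t) t := by
  have h1 : HasDerivAt (fun t : ℝ => (1 + t) ^ 2) (2 * (1 + t)) t := by
    have := ((hasDerivAt_id t).const_add 1).pow 2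
    have h0 : ((fun x : ℝ => 1 + x) ^ 2) = fun t : ℝ => (1 + t) ^ 2 := by ext x; rfl
    rw [← h0]
    simpa using this
  have h2 : HasDerivAt (fun t : ℝ => ((1 + t) ^ 2)⁻¹) (-(2 * (1 + t)) / ((1 + t) ^ 2) ^ 2) t :=
    h1.inv (by positivity)
  refine HasDerivAt.congr_deriv h2 ?_
  unfold ph1
  have : 1 + t ≠ 0 := by positivity
  field_simp

theorem ph1_deriv {t : ℝ} (ht : 0 ≤ t) : HasDerivAt ph1 (ph2 t) t := by
  have h1 : HasDerivAt (fun t : ℝ => (1 + t) ^ 3) (3 * (1 + t) ^ 2) t := by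
    have := ((hasDerivAt_id t).const_add 1).pow 3
    have h0 : ((fun x : ℝ => 1 + x) ^ 3) = fun t : ℝ => (1 + t) ^ 3 := by ext x; rfl
    rw [← h0]
    simpa using this
  have h2 : HasDerivAt (fun t : ℝ => -2 * ((1 + t) ^ 3)⁻¹)
      (-2 * (-(3 * (1 + t) ^ 2) / ((1 + t) ^ 3) ^ 2)) t :=
    (h1.inv (by positivity)).const_mul _
  refine HasDerivAt.congr_deriv h2 ?_
  unfold ph2
  have : 1 + t ≠ 0 := by positivity
  field_simp
  norm_num

end rad

variable {d : ℕ}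

/-- `Om` as a continuous bilinear map. -/
noncomputable def OmL (d : ℕ) : EE d →L[ℝ] EE d →L[ℝ] ℝ :=
  LinearMap.toContinuousLinearMap
    { toFun := fun u => LinearMap.toContinuousLinearMap
        { toFun := fun v => Om u v
          map_add' := fun a b => Om_add_right u a b
          map_smul' := fun r a => Om_smul_right r u a }
      map_add' := fun a b => by ext v; exact Om_add a b v
      map_smul' := fun r a => by ext v; exact Om_smul r a v }

theorem OmL_apply (u v : EE d) : OmL d u v = Om u v := rfl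

/-- The metric. -/
noncomputable def Gc (c : ℝ) (f : ℝ → ℝ) (y u v : EE d) : ℝ :=
  ph (‖y‖ ^ 2) * inner ℝ u v + c * (f (‖y‖ ^ 2) * (Om y u * Om y v))

/-- The first derivative of the metric. -/
noncomputable def dG (c : ℝ) (f f₁ : ℝ → ℝ) (y a e g : EE d) : ℝ :=
  2 * (ph1 (‖y‖ ^ 2) * inner ℝ y a) * inner ℝ e g
    + c * (2 * (f₁ (‖y‖ ^ 2) * inner ℝ y a) * (Om y e * Om y g)
      + f (‖y‖ ^ 2) * (Om a e * Om y g + Om y e * Om a g))

/-- The second derivative of the metric. -/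
noncomputable def ddG (c : ℝ) (f f₁ f₂ : ℝ → ℝ) (y b a e g : EE d) : ℝ :=
  2 * (2 * (ph2 (‖y‖ ^ 2) * inner ℝ y b) * inner ℝ y a + ph1 (‖y‖ ^ 2) * inner ℝ b a) * inner ℝ e g
    + c * (2 * (2 * (f₂ (‖y‖ ^ 2) * inner ℝ y b) * inner ℝ y a + f₁ (‖y‖ ^ 2) * inner ℝ b a)
        * (Om y e * Om y g)
      + 2 * (f₁ (‖y‖ ^ 2) * inner ℝ y a) * (Om b e * Om y g + Om y e * Om b g)
      + 2 * (f₁ (‖y‖ ^ 2) * inner ℝ y b) * (Om a e * Om y g + Om y e * Om a g)
      + f (‖y‖ ^ 2) * (Om a e * Om b g + Om b e * Om a g))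

theorem rad_deriv {α : ℝ → ℝ} {α' : ℝ} {y : EE d} (h : HasDerivAt α α' (‖y‖ ^ 2)) :
    HasFDerivAt (fun y : EE d => α (‖y‖ ^ 2)) ((2 * α') • inL (EE d) y) y := by
  have h1 : HasFDerivAt (fun y : EE d => ‖y‖ ^ 2) (2 • (innerSL ℝ y)) y :=
    (hasStrictFDerivAt_norm_sq y).hasFDerivAt
  have h2 := h.comp_hasFDerivAt y h1
  refine HasFDerivAt.congr_fderiv (f' := _) h2 ?_
  ext a
  simp [inL]
  ring

theorem Om_deriv (e y : EE d) : HasFDerivAt (fun y : EE d => Om y e) ((OmL d).flip e) y :=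
  ((OmL d).flip e).hasFDerivAt

theorem in_deriv (a y : EE d) : HasFDerivAt (fun y : EE d => inner ℝ y a) ((inL (EE d)).flip a) y :=
  ((inL (EE d)).flip a).hasFDerivAt

theorem inL_apply (u v : EE d) : inL (EE d) u v = inner ℝ u v := rfl

section derivs

variable {c : ℝ} {f f₁ f₂ : ℝ → ℝ}

theorem fderiv_Gc (hf : ∀ t, HasDerivAt f (f₁ t) t) (y a e g : EE d) :
    fderiv ℝ (fun y => Gc c f y e g) y a = dG c f f₁ y a e g := by
  have h1 := (rad_deriv (d := d) (y := y) (ph_deriv (sq_nonneg ‖y‖))).mul_const (inner ℝ e g : ℝ)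
  have h2 := (rad_deriv (d := d) (y := y) (hf (‖y‖ ^ 2))).mul ((Om_deriv e y).mul (Om_deriv g y))
  have h3 : HasFDerivAt (fun y => Gc c f y e g) _ y := h1.add (h2.const_mul c)
  rw [h3.fderiv]
  simp only [ContinuousLinearMap.add_apply, ContinuousLinearMap.smul_apply, smul_eq_mul,
    ContinuousLinearMap.flip_apply, OmL_apply, inL_apply, Pi.mul_apply, Pi.add_apply]
  unfold dG
  ring

theorem secondDeriv_Gc (hf : ∀ t, HasDerivAt f (f₁ t) t) (hf₁ : ∀ t, HasDerivAt f₁ (f₂ t) t)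
    (y b a e g : EE d) :
    secondDeriv (Gc c f) y b a e g = ddG c f f₁ f₂ y b a e g := by
  unfold secondDeriv
  simp only [fderiv_Gc hf]
  have p1 := (rad_deriv (d := d) (y := y) (ph1_deriv (sq_nonneg ‖y‖))).mul (in_deriv a y)
  have q1 := (rad_deriv (d := d) (y := y) (hf₁ (‖y‖ ^ 2))).mul (in_deriv a y)
  have q2 := (Om_deriv e y).mul (Om_deriv g y)
  have q3 := (rad_deriv (d := d) (y := y) (hf (‖y‖ ^ 2)))
  have q4 := ((Om_deriv g y).const_mul (Om a e)).add ((Om_deriv e y).mul_const (Om a g))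
  have h1 := (p1.const_mul 2).mul_const (inner ℝ e g : ℝ)
  have h2 := ((q1.const_mul 2).mul q2).add (q3.mul q4)
  have h3 : HasFDerivAt (fun y => dG c f f₁ y a e g) _ y := h1.add (h2.const_mul c)
  rw [h3.fderiv]
  simp only [ContinuousLinearMap.add_apply, ContinuousLinearMap.smul_apply, smul_eq_mul,
    ContinuousLinearMap.flip_apply, OmL_apply, inL_apply, Pi.mul_apply, Pi.add_apply]
  unfold ddG
  ring

end derivs

/-- The metric with values in continuous bilinear forms. -/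
noncomputable def GcL (c : ℝ) (f : ℝ → ℝ) (y : EE d) : EE d →L[ℝ] EE d →L[ℝ] ℝ :=
  ph (‖y‖ ^ 2) • inL (EE d) + (c * f (‖y‖ ^ 2)) • (OmL d y).smulRight (OmL d y)

theorem GcL_apply (c : ℝ) (f : ℝ → ℝ) (y u v : EE d) : GcL c f y u v = Gc c f y u v := by
  unfold GcL Gc
  simp only [ContinuousLinearMap.add_apply, ContinuousLinearMap.smul_apply, smul_eq_mul,
    ContinuousLinearMap.smulRight_apply, OmL_apply, inL_apply]
  ring

theorem ph_smooth : ContDiff ℝ ∞ (fun y : EE d => ph (‖y‖ ^ 2)) := by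
  unfold ph
  apply ContDiff.inv
  · exact (contDiff_const.add (contDiff_norm_sq ℝ)).pow 2
  · intro y; positivity

theorem GcL_smooth {c : ℝ} {f : ℝ → ℝ} (hf : ContDiff ℝ ∞ f) : ContDiff ℝ ∞ (GcL (d := d) c f) := by
  unfold GcL
  have h1 : ContDiff ℝ ∞ (fun y : EE d => ph (‖y‖ ^ 2) • inL (EE d)) :=
    ph_smooth.smul contDiff_const
  have h2 : ContDiff ℝ ∞ (fun y : EE d => c * f (‖y‖ ^ 2)) :=
    contDiff_const.mul (hf.comp (contDiff_norm_sq ℝ))
  have h3 : ContDiff ℝ ∞ (fun y : EE d => (OmL d y).smulRight (OmL d y)) :=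
    (OmL d).contDiff.smulRight (OmL d).contDiff
  exact h1.add (h2.smul h3)

theorem Gc_smooth {c : ℝ} {f : ℝ → ℝ} (hf : ContDiff ℝ ∞ f) (u v : EE d) :
    ContDiff ℝ ∞ (fun y => Gc c f y u v) := by
  have h : (fun y => Gc c f y u v) = fun y => GcL c f y u v := by
    ext y; rw [GcL_apply]
  rw [h]
  exact ((GcL_smooth hf).clm_apply contDiff_const).clm_apply contDiff_const

theorem ph_pos {t : ℝ} (ht : 0 ≤ t) : 0 < ph t := by unfold ph; positivity

theorem Gc_ge {c : ℝ} {f : ℝ → ℝ} (hc : 0 ≤ c) (hf0 : ∀ t, 0 ≤ f t) (y u : EE d) :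
    ph (‖y‖ ^ 2) * ‖u‖ ^ 2 ≤ Gc c f y u u := by
  unfold Gc
  rw [real_inner_self_eq_norm_sq]
  have : 0 ≤ c * (f (‖y‖ ^ 2) * (Om y u * Om y u)) :=
    mul_nonneg hc (mul_nonneg (hf0 _) (mul_self_nonneg _))
  linarith

theorem Gc_nice {c : ℝ} {f : ℝ → ℝ} (hc : 0 ≤ c) (hf0 : ∀ t, 0 ≤ f t) (hf : ContDiff ℝ ∞ f)
    (y : EE d) : Nice (Gc c f) y where
  add y u u' v := by
    rw [← GcL_apply, map_add]; simp [GcL_apply]
  smul y c' u v := by
    rw [← GcL_apply, map_smul]; simp [GcL_apply]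
  symm y u v := by
    unfold Gc
    rw [real_inner_comm]; ring
  pos u hu := by
    have h1 := Gc_ge hc hf0 y u
    have h2 := ph_pos (sq_nonneg ‖y‖)
    have h3 : 0 < ‖u‖ ^ 2 := by
      have := norm_pos_iff.mpr hu
      positivity
    exact lt_of_lt_of_le (mul_pos h2 h3) h1
  smooth u v := ((Gc_smooth hf u v).of_le ENat.LEInfty.out).contDiffAt

end Pool.Agent.CCM
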