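import Mathlib
import Pool.Agent.CCM.Metric

/-!
Curvature estimates for the metric `Gc`.
-/

set_option autoImplicit false
set_option maxSynthPendingDepth 3

open scoped Manifold ContDiff Topology

namespace Pool.Agent.CCM

open Pool.Agent.Lib_helper77

/-- Hypotheses on the cutoff function. -/
structure Cut (c ε : ℝ) (f f₁ f₂ : ℝ → ℝ) : Prop where
  c0 : 0 ≤ c
  c1 : c ≤ 1
  e1 : ε ≤ 1
  sm : ContDiff ℝ ∞ f
  d1 : ∀ t, HasDerivAt f (f₁ t) t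
  d2 : ∀ t, HasDerivAt f₁ (f₂ t) t
  f0 : ∀ t, 0 ≤ f t
  f1 : ∀ t, f t ≤ 1
  b1 : ∀ t, 0 ≤ t → t * |f₁ t| ≤ ε
  b2 : ∀ t, 0 ≤ t → t ^ 2 * |f₂ t| ≤ ε

theorem mab {a b A B : ℝ} (h1 : |a| ≤ A) (h2 : |b| ≤ B) : |a * b| ≤ A * B := by
  rw [abs_mul]
  exact mul_le_mul h1 h2 (abs_nonneg _) (le_trans (abs_nonneg _) h1)

theorem aab {a b A B : ℝ} (h1 : |a| ≤ A) (h2 : |b| ≤ B) : |a + b| ≤ A + B :=
  (abs_add_le _ _).trans (add_le_add h1 h2)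

theorem sab {a b A B : ℝ} (h1 : |a| ≤ A) (h2 : |b| ≤ B) : |a - b| ≤ A + B :=
  (abs_sub _ _).trans (add_le_add h1 h2)

theorem Om_self {d : ℕ} (u : EE d) : Om u u = 0 := by
  have := Om_swap u u
  linarith

theorem ph_le_one {t : ℝ} (ht : 0 ≤ t) : ph t ≤ 1 := by
  unfold ph
  apply inv_le_one_of_one_le₀
  nlinarith

theorem ph_ge {t : ℝ} (ht : 0 ≤ t) : 1 - 2 * t ≤ ph t := by
  unfold ph
  rw [← one_div, le_div_iff₀ (by positivity)]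
  nlinarith [mul_nonneg ht (mul_nonneg ht ht), mul_nonneg ht ht]

theorem ph_quarter {t : ℝ} (ht : 0 ≤ t) (h1 : t ≤ 1) : 1 / 4 ≤ ph t := by
  unfold ph
  rw [← one_div]
  apply one_div_le_one_div_of_le (by positivity)
  nlinarith

theorem ph1_abs {t : ℝ} (ht : 0 ≤ t) : |ph1 t| ≤ 2 := by
  unfold ph1
  have h1 : ((1 + t) ^ 3)⁻¹ ≤ 1 := by
    apply inv_le_one_of_one_le₀
    exact one_le_pow₀ (by linarith)
  have h2 : 0 ≤ ((1 + t) ^ 3)⁻¹ := by positivity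
  rw [abs_le]
  constructor <;> linarith

theorem ph2_abs {t : ℝ} (ht : 0 ≤ t) : |ph2 t| ≤ 6 := by
  unfold ph2
  have h1 : ((1 + t) ^ 4)⁻¹ ≤ 1 := by
    apply inv_le_one_of_one_le₀
    exact one_le_pow₀ (by linarith)
  have h2 : 0 ≤ ((1 + t) ^ 4)⁻¹ := by positivity
  rw [abs_le]
  constructor <;> linarith

theorem ph1_near {t : ℝ} (ht : 0 ≤ t) : |(-2) * ph1 t - 4| ≤ 12 * t := by
  unfold ph1
  have h1 : ((1 + t) ^ 3)⁻¹ ≤ 1 := by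
    apply inv_le_one_of_one_le₀
    exact one_le_pow₀ (by linarith)
  have h2 : 1 - 3 * t ≤ ((1 + t) ^ 3)⁻¹ := by
    rw [← one_div, le_div_iff₀ (by positivity)]
    nlinarith [mul_nonneg ht ht, mul_nonneg ht (mul_nonneg ht ht),
      mul_nonneg (mul_nonneg ht ht) (mul_nonneg ht ht)]
  rw [abs_le]
  constructor <;> linarith

section est

variable {d : ℕ} {c ε : ℝ} {f f₁ f₂ : ℝ → ℝ}

theorem dG_bound (h : Cut c ε f f₁ f₂) (y a e g : EE d) :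
    |dG c f f₁ y a e g| ≤ 8 * (‖y‖ * (‖a‖ * ‖e‖ * ‖g‖)) := by
  set q := ‖y‖ ^ 2 with hq
  have hq0 : 0 ≤ q := sq_nonneg _
  set S := ‖y‖ * (‖a‖ * ‖e‖ * ‖g‖) with hS
  have hS0 : 0 ≤ S := by positivity
  have iya := abs_real_inner_le_norm y a
  have ieg := abs_real_inner_le_norm e g
  have t1 : |2 * (ph1 q * inner ℝ y a) * inner ℝ e g| ≤ 4 * S := by
    have := mab (mab (le_of_eq (abs_of_pos (by norm_num : (0:ℝ) < 2)))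
      (mab (ph1_abs hq0) iya)) ieg
    refine this.trans (le_of_eq ?_)
    rw [hS]; ring
  have t2 : |2 * (f₁ q * inner ℝ y a) * (Om y e * Om y g)| ≤ 2 * S := by
    have := mab (mab (le_of_eq (abs_of_pos (by norm_num : (0:ℝ) < 2)))
      (mab (le_refl |f₁ q|) iya)) (mab (Om_bound y e) (Om_bound y g))
    refine this.trans ?_
    have e1 : 2 * (|f₁ q| * (‖y‖ * ‖a‖)) * (‖y‖ * ‖e‖ * (‖y‖ * ‖g‖)) = 2 * (q * |f₁ q|) * S := by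
      rw [hS, hq]; ring
    rw [e1]
    have e2 := (h.b1 q hq0).trans h.e1
    nlinarith
  have t3 : |f q * (Om a e * Om y g + Om y e * Om a g)| ≤ 2 * S := by
    have hf : |f q| ≤ 1 := by rw [abs_of_nonneg (h.f0 q)]; exact h.f1 q
    have := mab hf (aab (mab (Om_bound a e) (Om_bound y g)) (mab (Om_bound y e) (Om_bound a g)))
    refine this.trans (le_of_eq ?_)
    rw [hS]; ring
  have t4 : |c * (2 * (f₁ q * inner ℝ y a) * (Om y e * Om y g)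
      + f q * (Om a e * Om y g + Om y e * Om a g))| ≤ 1 * (2 * S + 2 * S) := by
    refine mab ?_ (aab t2 t3)
    rw [abs_of_nonneg h.c0]
    exact h.c1
  have t5 := aab t1 t4
  unfold dG
  rw [← hq]
  refine t5.trans (le_of_eq ?_)
  ring

theorem cf_bound' (h : Cut c ε f f₁ f₂) (y u v w : EE d) :
    |christoffelFirst (Gc c f) y u v w| ≤ 12 * (‖y‖ * (‖u‖ * ‖v‖ * ‖w‖)) := by
  unfold christoffelFirst
  rw [fderiv_Gc h.d1, fderiv_Gc h.d1, fderiv_Gc h.d1]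
  have h1 := dG_bound h y u v w
  have h2 := dG_bound h y v u w
  have h3 := dG_bound h y w u v
  have h4 := sab (aab h1 h2) h3
  rw [abs_div, abs_of_pos (by norm_num : (0:ℝ) < 2), div_le_iff₀ (by norm_num : (0:ℝ) < 2)]
  refine h4.trans (le_of_eq ?_)
  ring

theorem Gc_abs_le (h : Cut c ε f f₁ f₂) {y : EE d} (hy : ‖y‖ ^ 2 ≤ 1) (u v : EE d) :
    |Gc c f y u v| ≤ 2 * (‖u‖ * ‖v‖) := by
  have hq0 : 0 ≤ ‖y‖ ^ 2 := sq_nonneg _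
  have hp : |ph (‖y‖ ^ 2)| ≤ 1 := by
    rw [abs_of_pos (ph_pos hq0)]
    exact ph_le_one hq0
  have hc : |c| ≤ 1 := by
    rw [abs_of_nonneg h.c0]
    exact h.c1
  have hf : |f (‖y‖ ^ 2)| ≤ 1 := by rw [abs_of_nonneg (h.f0 _)]; exact h.f1 _
  have h1 := aab (mab hp (abs_real_inner_le_norm u v))
    (mab hc (mab hf (mab (Om_bound y u) (Om_bound y v))))
  refine h1.trans ?_
  have e1 : 1 * (‖u‖ * ‖v‖) + 1 * (1 * (‖y‖ * ‖u‖ * (‖y‖ * ‖v‖)))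
      = (1 + ‖y‖ ^ 2) * (‖u‖ * ‖v‖) := by ring
  rw [e1]
  have : 0 ≤ ‖u‖ * ‖v‖ := by positivity
  nlinarith

theorem Ga_bound (h : Cut c ε f f₁ f₂) {y : EE d} (hy : ‖y‖ ^ 2 ≤ 1) (u v : EE d) :
    ‖christoffel (Gc c f) y u v‖ ≤ 48 * (‖y‖ * (‖u‖ * ‖v‖)) := by
  set Γ := christoffel (Gc c f) y u v with hΓ
  have h1 := (Gc_nice (d := d) h.c0 h.f0 h.sm y).christoffel_spec u v Γ
  rw [← hΓ] at h1
  have h2 := Gc_ge (d := d) h.c0 h.f0 y Γ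
  have h3 := cf_bound' h y u v Γ
  rw [h1] at h2
  have h4 := (abs_le.mp h3).2
  have h7 := ph_quarter (sq_nonneg ‖y‖) hy
  by_contra hcon
  push Not at hcon
  have h5 : 0 ≤ 48 * (‖y‖ * (‖u‖ * ‖v‖)) := by positivity
  have h6 : 0 < ‖Γ‖ := lt_of_le_of_lt h5 hcon
  have h8 : 1 / 4 * ‖Γ‖ ^ 2 ≤ 12 * (‖y‖ * (‖u‖ * ‖v‖ * ‖Γ‖)) := by
    refine le_trans ?_ (h2.trans h4)
    exact mul_le_mul_of_nonneg_right h7 (sq_nonneg _)
  nlinarith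

/-- The part of the curvature coming from the second derivatives. -/
noncomputable def T2 (c : ℝ) (f f₁ f₂ : ℝ → ℝ) (y u v : EE d) : ℝ :=
  -2 * ph1 (‖y‖ ^ 2) * (inner ℝ u u * inner ℝ v v)
    - 2 * ph2 (‖y‖ ^ 2) * (inner ℝ y v ^ 2 * inner ℝ u u + inner ℝ y u ^ 2 * inner ℝ v v)
    - 3 * c * f (‖y‖ ^ 2) * Om u v ^ 2
    + c * (-2 * f₂ (‖y‖ ^ 2) * (inner ℝ y v * Om y u - inner ℝ y u * Om y v) ^ 2
      - f₁ (‖y‖ ^ 2) * (inner ℝ v v * Om y u ^ 2 + inner ℝ u u * Om y v ^ 2)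
      + 6 * (f₁ (‖y‖ ^ 2) * (Om u v * (inner ℝ y v * Om y u - inner ℝ y u * Om y v))))

theorem curv_eq (h : Cut c ε f f₁ f₂) (y : EE d) {u v : EE d} (huv : inner ℝ u v = 0) :
    curvCoord (Gc c f) y u v u v = T2 c f f₁ f₂ y u v
      + Gc c f y (christoffel (Gc c f) y v u) (christoffel (Gc c f) y u v)
      - Gc c f y (christoffel (Gc c f) y v v) (christoffel (Gc c f) y u u) := by
  have hvu : inner ℝ v u = 0 := by rw [real_inner_comm]; exact huv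
  have o1 : Om v u = - Om u v := Om_swap u v
  unfold curvCoord
  rw [secondDeriv_Gc h.d1 h.d2, secondDeriv_Gc h.d1 h.d2, secondDeriv_Gc h.d1 h.d2,
    secondDeriv_Gc h.d1 h.d2]
  unfold ddG T2
  rw [huv, hvu, o1, Om_self u, Om_self v]
  ring

theorem G_Ga_bound (h : Cut c ε f f₁ f₂) {y : EE d} (hy : ‖y‖ ^ 2 ≤ 1) (u v w z : EE d) :
    |Gc c f y (christoffel (Gc c f) y u v) (christoffel (Gc c f) y w z)|
      ≤ 4608 * (‖y‖ ^ 2 * (‖u‖ * ‖v‖ * ‖w‖ * ‖z‖)) := by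
  have h1 := Gc_abs_le h hy (christoffel (Gc c f) y u v) (christoffel (Gc c f) y w z)
  have h2 := Ga_bound h hy u v
  have h3 := Ga_bound h hy w z
  have h4 := mul_le_mul h2 h3 (norm_nonneg _) (by positivity)
  refine h1.trans ?_
  have e1 : 4608 * (‖y‖ ^ 2 * (‖u‖ * ‖v‖ * ‖w‖ * ‖z‖))
      = 2 * (48 * (‖y‖ * (‖u‖ * ‖v‖)) * (48 * (‖y‖ * (‖w‖ * ‖z‖)))) := by ring
  rw [e1]
  linarith

theorem T2_bound (h : Cut c ε f f₁ f₂) (y u v : EE d) :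
    |T2 c f f₁ f₂ y u v - (4 * (‖u‖ ^ 2 * ‖v‖ ^ 2) - 3 * c * f (‖y‖ ^ 2) * Om u v ^ 2)|
      ≤ (36 * ‖y‖ ^ 2 + 22 * ε) * (‖u‖ ^ 2 * ‖v‖ ^ 2) := by
  set q := ‖y‖ ^ 2 with hq
  have hq0 : 0 ≤ q := sq_nonneg _
  set N := ‖u‖ ^ 2 * ‖v‖ ^ 2 with hN
  have hN0 : 0 ≤ N := by positivity
  have hε0 : 0 ≤ ε := le_trans (by positivity) (h.b1 0 le_rfl)
  have ia := abs_real_inner_le_norm y u
  have ib := abs_real_inner_le_norm y v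
  have a2 : inner ℝ y u ^ 2 ≤ q * ‖u‖ ^ 2 := by
    rw [← sq_abs, hq, ← mul_pow]
    exact pow_le_pow_left₀ (abs_nonneg _) ia 2
  have b2 : inner ℝ y v ^ 2 ≤ q * ‖v‖ ^ 2 := by
    rw [← sq_abs, hq, ← mul_pow]
    exact pow_le_pow_left₀ (abs_nonneg _) ib 2
  have A2 : Om y u ^ 2 ≤ q * ‖u‖ ^ 2 := by
    rw [← sq_abs, hq, ← mul_pow]
    exact pow_le_pow_left₀ (abs_nonneg _) (Om_bound y u) 2
  have B2 : Om y v ^ 2 ≤ q * ‖v‖ ^ 2 := by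
    rw [← sq_abs, hq, ← mul_pow]
    exact pow_le_pow_left₀ (abs_nonneg _) (Om_bound y v) 2
  set X := inner ℝ y v * Om y u - inner ℝ y u * Om y v with hX
  have hXb : |X| ≤ 2 * (q * (‖u‖ * ‖v‖)) := by
    have := sab (mab ib (Om_bound y u)) (mab ia (Om_bound y v))
    refine this.trans (le_of_eq ?_)
    rw [hq]; ring
  have hX2 : X ^ 2 ≤ 4 * (q ^ 2 * N) := by
    rw [← sq_abs]
    have := pow_le_pow_left₀ (abs_nonneg _) hXb 2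
    refine this.trans (le_of_eq ?_)
    rw [hN]; ring
  -- the terms
  have s1 : |((-2) * ph1 q - 4) * N| ≤ 12 * q * N :=
    mab (ph1_near hq0) (le_of_eq (abs_of_nonneg hN0))
  have s2 : |2 * ph2 q * (inner ℝ y v ^ 2 * ‖u‖ ^ 2 + inner ℝ y u ^ 2 * ‖v‖ ^ 2)|
      ≤ 2 * 6 * (2 * (q * N)) := by
    refine mab (mab (le_of_eq (abs_of_pos (by norm_num : (0:ℝ) < 2))) (ph2_abs hq0)) ?_
    rw [abs_of_nonneg (by positivity)]
    have hu : 0 ≤ ‖u‖ ^ 2 := sq_nonneg _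
    have hv : 0 ≤ ‖v‖ ^ 2 := sq_nonneg _
    have k1 := mul_le_mul_of_nonneg_right b2 hu
    have k2 := mul_le_mul_of_nonneg_right a2 hv
    have e1 : q * ‖v‖ ^ 2 * ‖u‖ ^ 2 = q * N := by rw [hN]; ring
    have e2 : q * ‖u‖ ^ 2 * ‖v‖ ^ 2 = q * N := by rw [hN]; ring
    linarith
  have s3 : |2 * f₂ q * X ^ 2| ≤ 8 * ε * N := by
    have := mab (mab (le_of_eq (abs_of_pos (by norm_num : (0:ℝ) < 2))) (le_refl |f₂ q|))
      ((le_of_eq (abs_of_nonneg (sq_nonneg X))).trans hX2)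
    refine this.trans ?_
    have e1 : 2 * |f₂ q| * (4 * (q ^ 2 * N)) = 8 * (q ^ 2 * |f₂ q|) * N := by ring
    rw [e1]
    have := h.b2 q hq0
    nlinarith
  have s4 : |f₁ q * (‖v‖ ^ 2 * Om y u ^ 2 + ‖u‖ ^ 2 * Om y v ^ 2)| ≤ 2 * ε * N := by
    have hu : 0 ≤ ‖u‖ ^ 2 := sq_nonneg _
    have hv : 0 ≤ ‖v‖ ^ 2 := sq_nonneg _
    have k1 := mul_le_mul_of_nonneg_left A2 hv
    have k2 := mul_le_mul_of_nonneg_left B2 hu
    have k3 : |‖v‖ ^ 2 * Om y u ^ 2 + ‖u‖ ^ 2 * Om y v ^ 2| ≤ 2 * (q * N) := by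
      rw [abs_of_nonneg (by positivity)]
      have e1 : ‖v‖ ^ 2 * (q * ‖u‖ ^ 2) = q * N := by rw [hN]; ring
      have e2 : ‖u‖ ^ 2 * (q * ‖v‖ ^ 2) = q * N := by rw [hN]; ring
      linarith
    refine (mab (le_refl |f₁ q|) k3).trans ?_
    have e1 : |f₁ q| * (2 * (q * N)) = 2 * (q * |f₁ q|) * N := by ring
    rw [e1]
    have := h.b1 q hq0
    nlinarith
  have s5 : |6 * (f₁ q * (Om u v * X))| ≤ 12 * ε * N := by
    have := mab (le_of_eq (abs_of_pos (by norm_num : (0:ℝ) < 6)))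
      (mab (le_refl |f₁ q|) (mab (Om_bound u v) hXb))
    refine this.trans ?_
    have e1 : 6 * (|f₁ q| * (‖u‖ * ‖v‖ * (2 * (q * (‖u‖ * ‖v‖))))) = 12 * (q * |f₁ q|) * N := by
      rw [hN]; ring
    rw [e1]
    have := h.b1 q hq0
    nlinarith
  have s6 : |c * (2 * f₂ q * X ^ 2 + f₁ q * (‖v‖ ^ 2 * Om y u ^ 2 + ‖u‖ ^ 2 * Om y v ^ 2)
      - 6 * (f₁ q * (Om u v * X)))| ≤ 1 * (8 * ε * N + 2 * ε * N + 12 * ε * N) := by
    refine mab ?_ (sab (aab s3 s4) s5)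
    rw [abs_of_nonneg h.c0]
    exact h.c1
  have s7 := sab (sab s1 s2) s6
  unfold T2
  rw [← hq, ← hX, real_inner_self_eq_norm_sq, real_inner_self_eq_norm_sq]
  have e0 : -2 * ph1 q * (‖u‖ ^ 2 * ‖v‖ ^ 2)
      - 2 * ph2 q * (inner ℝ y v ^ 2 * ‖u‖ ^ 2 + inner ℝ y u ^ 2 * ‖v‖ ^ 2)
      - 3 * c * f q * Om u v ^ 2
      + c * (-2 * f₂ q * X ^ 2 - f₁ q * (‖v‖ ^ 2 * Om y u ^ 2 + ‖u‖ ^ 2 * Om y v ^ 2)
        + 6 * (f₁ q * (Om u v * X)))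
      - (4 * N - 3 * c * f q * Om u v ^ 2)
      = ((-2) * ph1 q - 4) * N
        - 2 * ph2 q * (inner ℝ y v ^ 2 * ‖u‖ ^ 2 + inner ℝ y u ^ 2 * ‖v‖ ^ 2)
        - c * (2 * f₂ q * X ^ 2 + f₁ q * (‖v‖ ^ 2 * Om y u ^ 2 + ‖u‖ ^ 2 * Om y v ^ 2)
      - 6 * (f₁ q * (Om u v * X))) := by
    rw [hN]; ring
  rw [e0]
  refine s7.trans (le_of_eq ?_)
  ring

theorem curv_bound (h : Cut c ε f f₁ f₂) {y : EE d} (hy : ‖y‖ ^ 2 ≤ 1) {u v : EE d}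
    (huv : inner ℝ u v = 0) :
    |curvCoord (Gc c f) y u v u v
      - (4 * (‖u‖ ^ 2 * ‖v‖ ^ 2) - 3 * c * f (‖y‖ ^ 2) * Om u v ^ 2)|
      ≤ (9252 * ‖y‖ ^ 2 + 22 * ε) * (‖u‖ ^ 2 * ‖v‖ ^ 2) := by
  have h1 := G_Ga_bound h hy v u u v
  have h2 := G_Ga_bound h hy v v u u
  have h3 := sab (aab (T2_bound h y u v) h1) h2
  rw [curv_eq h y huv]
  have e1 : T2 c f f₁ f₂ y u v
      + Gc c f y (christoffel (Gc c f) y v u) (christoffel (Gc c f) y u v)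
      - Gc c f y (christoffel (Gc c f) y v v) (christoffel (Gc c f) y u u)
      - (4 * (‖u‖ ^ 2 * ‖v‖ ^ 2) - 3 * c * f (‖y‖ ^ 2) * Om u v ^ 2)
      = T2 c f f₁ f₂ y u v - (4 * (‖u‖ ^ 2 * ‖v‖ ^ 2) - 3 * c * f (‖y‖ ^ 2) * Om u v ^ 2)
      + Gc c f y (christoffel (Gc c f) y v u) (christoffel (Gc c f) y u v)
      - Gc c f y (christoffel (Gc c f) y v v) (christoffel (Gc c f) y u u) := by ring
  rw [e1]
  refine h3.trans (le_of_eq ?_)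
  ring

theorem gram_eq (c : ℝ) (f : ℝ → ℝ) (y : EE d) {u v : EE d} (huv : inner ℝ u v = 0) :
    Gc c f y u u * Gc c f y v v - Gc c f y u v ^ 2
      = ph (‖y‖ ^ 2) ^ 2 * (‖u‖ ^ 2 * ‖v‖ ^ 2)
        + ph (‖y‖ ^ 2) * (c * f (‖y‖ ^ 2)) * (‖u‖ ^ 2 * Om y v ^ 2 + ‖v‖ ^ 2 * Om y u ^ 2) := by
  unfold Gc
  rw [huv, real_inner_self_eq_norm_sq, real_inner_self_eq_norm_sq]
  ring

theorem gram_bounds (h : Cut c ε f f₁ f₂) {y : EE d} (hy : ‖y‖ ^ 2 ≤ 1 / 8) {u v : EE d}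
    (huv : inner ℝ u v = 0) :
    (1 - 4 * ‖y‖ ^ 2) * (‖u‖ ^ 2 * ‖v‖ ^ 2) ≤ Gc c f y u u * Gc c f y v v - Gc c f y u v ^ 2 ∧
    Gc c f y u u * Gc c f y v v - Gc c f y u v ^ 2 ≤ (1 + 2 * ‖y‖ ^ 2) * (‖u‖ ^ 2 * ‖v‖ ^ 2) := by
  rw [gram_eq c f y huv]
  set q := ‖y‖ ^ 2 with hq
  have hq0 : 0 ≤ q := sq_nonneg _
  set N := ‖u‖ ^ 2 * ‖v‖ ^ 2 with hN
  have hN0 : 0 ≤ N := by positivity
  have hp0 := ph_pos hq0
  have hp1 := ph_le_one hq0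
  have hp2 := ph_ge hq0
  have A2 : Om y u ^ 2 ≤ q * ‖u‖ ^ 2 := by
    rw [← sq_abs, hq, ← mul_pow]
    exact pow_le_pow_left₀ (abs_nonneg _) (Om_bound y u) 2
  have B2 : Om y v ^ 2 ≤ q * ‖v‖ ^ 2 := by
    rw [← sq_abs, hq, ← mul_pow]
    exact pow_le_pow_left₀ (abs_nonneg _) (Om_bound y v) 2
  have hu : 0 ≤ ‖u‖ ^ 2 := sq_nonneg _
  have hv : 0 ≤ ‖v‖ ^ 2 := sq_nonneg _
  have k1 := mul_le_mul_of_nonneg_left A2 hv
  have k2 := mul_le_mul_of_nonneg_left B2 hu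
  have k3 : ‖u‖ ^ 2 * Om y v ^ 2 + ‖v‖ ^ 2 * Om y u ^ 2 ≤ 2 * (q * N) := by
    have e1 : ‖v‖ ^ 2 * (q * ‖u‖ ^ 2) = q * N := by rw [hN]; ring
    have e2 : ‖u‖ ^ 2 * (q * ‖v‖ ^ 2) = q * N := by rw [hN]; ring
    linarith
  have k4 : 0 ≤ ‖u‖ ^ 2 * Om y v ^ 2 + ‖v‖ ^ 2 * Om y u ^ 2 := by positivity
  have hcf0 : 0 ≤ c * f q := mul_nonneg h.c0 (h.f0 q)
  have hcf1 : c * f q ≤ 1 := mul_le_one₀ h.c1 (h.f0 q) (h.f1 q)
  have hcf2 : ph q * (c * f q) ≤ 1 := mul_le_one₀ hp1 hcf0 hcf1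
  have hcf3 : 0 ≤ ph q * (c * f q) := mul_nonneg hp0.le hcf0
  have hpp : ph q ^ 2 ≤ 1 := pow_le_one₀ hp0.le hp1
  have hpp2 : 1 - 4 * q ≤ ph q ^ 2 := by nlinarith
  constructor
  · have := mul_le_mul_of_nonneg_right hpp2 hN0
    have := mul_nonneg hcf3 k4
    linarith
  · have m1 := mul_le_mul_of_nonneg_right hpp hN0
    have m2 := mul_le_mul_of_nonneg_right hcf2 k4
    linarith

end est

end Pool.Agent.CCM
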