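import Mathlib
import Pool.Agent.CCM.Curv

/-!
Sectional curvature of the metric `Gc`: near the origin, at the origin, and where the cutoff
function vanishes.
-/

set_option autoImplicit false
set_option maxSynthPendingDepth 3

open scoped Manifold ContDiff Topology

namespace Pool.Agent.CCM

open Pool.Agent.Lib_helper77

section near

variable {d : ℕ} {c ε : ℝ} {f f₁ f₂ : ℝ → ℝ}

theorem sec_orth (h : Cut c ε f f₁ f₂) {y : EE d} (hy : ‖y‖ ^ 2 ≤ 1 / 8)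
    {u v : EE d} (hu : u ≠ 0) (hv : v ≠ 0) (huv : inner ℝ u v = 0)
    (ha : 0 < 4 - 3 * c - (9252 * ‖y‖ ^ 2 + 22 * ε)) :
    (4 - 3 * c - (9252 * ‖y‖ ^ 2 + 22 * ε)) / (1 + 2 * ‖y‖ ^ 2)
      ≤ curvCoord (Gc c f) y u v u v / (Gc c f y u u * Gc c f y v v - Gc c f y u v ^ 2) ∧
    curvCoord (Gc c f) y u v u v / (Gc c f y u u * Gc c f y v v - Gc c f y u v ^ 2)
      ≤ (4 + (9252 * ‖y‖ ^ 2 + 22 * ε)) / (1 - 4 * ‖y‖ ^ 2) := by
  have hb := abs_le.mp (curv_bound h (le_trans hy (by norm_num)) huv)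
  obtain ⟨g1, g2⟩ := gram_bounds h hy huv
  have hε0 : 0 ≤ ε := le_trans (by positivity) (h.b1 0 le_rfl)
  have hq0 : 0 ≤ ‖y‖ ^ 2 := sq_nonneg _
  set q := ‖y‖ ^ 2 with hq
  set η := 9252 * q + 22 * ε with hη
  have hη0 : 0 ≤ η := by positivity
  set N := ‖u‖ ^ 2 * ‖v‖ ^ 2 with hN
  have hNpos : 0 < N := by
    have := norm_pos_iff.mpr hu
    have := norm_pos_iff.mpr hv
    positivity
  have hO : Om u v ^ 2 ≤ N := by
    rw [hN, ← mul_pow, ← sq_abs]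
    exact pow_le_pow_left₀ (abs_nonneg _) (Om_bound u v) 2
  have hO0 : 0 ≤ Om u v ^ 2 := sq_nonneg _
  have hcf0 : 0 ≤ 3 * c * f q := mul_nonneg (mul_nonneg (by norm_num) h.c0) (h.f0 q)
  have hcf1 : 3 * c * f q ≤ 3 * c := by
    have := mul_le_mul_of_nonneg_left (h.f1 q) (mul_nonneg (by norm_num : (0:ℝ) ≤ 3) h.c0)
    linarith
  have hT : 3 * c * f q * Om u v ^ 2 ≤ 3 * c * N :=
    mul_le_mul hcf1 hO hO0 (mul_nonneg (by norm_num) h.c0)
  have hT0 : 0 ≤ 3 * c * f q * Om u v ^ 2 := mul_nonneg hcf0 hO0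
  have hc1 : (4 - 3 * c - η) * N ≤ curvCoord (Gc c f) y u v u v := by linarith [hb.1]
  have hc2 : curvCoord (Gc c f) y u v u v ≤ (4 + η) * N := by linarith [hb.2]
  have hgpos : 0 < Gc c f y u u * Gc c f y v v - Gc c f y u v ^ 2 :=
    lt_of_lt_of_le (mul_pos (by linarith) hNpos) g1
  constructor
  · rw [div_le_div_iff₀ (by positivity) hgpos]
    calc (4 - 3 * c - η) * (Gc c f y u u * Gc c f y v v - Gc c f y u v ^ 2)
        ≤ (4 - 3 * c - η) * ((1 + 2 * q) * N) := mul_le_mul_of_nonneg_left g2 ha.le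
      _ = ((4 - 3 * c - η) * N) * (1 + 2 * q) := by ring
      _ ≤ curvCoord (Gc c f) y u v u v * (1 + 2 * q) :=
          mul_le_mul_of_nonneg_right hc1 (by positivity)
  · rw [div_le_div_iff₀ hgpos (by linarith)]
    calc curvCoord (Gc c f) y u v u v * (1 - 4 * q)
        ≤ ((4 + η) * N) * (1 - 4 * q) := mul_le_mul_of_nonneg_right hc2 (by linarith)
      _ = (4 + η) * ((1 - 4 * q) * N) := by ring
      _ ≤ _ := mul_le_mul_of_nonneg_left g1 (by positivity)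

theorem sec_near (h : Cut c ε f f₁ f₂) {y : EE d} (hy : ‖y‖ ^ 2 ≤ 1 / 8)
    {u v : EE d} (huv : LinearIndependent ℝ ![u, v])
    (ha : 0 < 4 - 3 * c - (9252 * ‖y‖ ^ 2 + 22 * ε)) :
    (4 - 3 * c - (9252 * ‖y‖ ^ 2 + 22 * ε)) / (1 + 2 * ‖y‖ ^ 2)
      ≤ curvCoord (Gc c f) y u v u v / (Gc c f y u u * Gc c f y v v - Gc c f y u v ^ 2) ∧
    curvCoord (Gc c f) y u v u v / (Gc c f y u u * Gc c f y v v - Gc c f y u v ^ 2)
      ≤ (4 + (9252 * ‖y‖ ^ 2 + 22 * ε)) / (1 - 4 * ‖y‖ ^ 2) := by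
  have hN := Gc_nice (d := d) h.c0 h.f0 h.sm y
  have h := sec_orth h hy (li_ne huv) (perp_ne huv) (inner_perp (li_ne huv) v) ha
  rw [curv_perp hN.algCurv, gram_perp hN] at h
  exact h

/-- Numerical comparison. -/
theorem num_pinch {δ c q ε γ : ℝ} (hδ0 : 0 < δ) (hδ1 : δ ≤ 1) (hc : 0 ≤ c) (hq0 : 0 ≤ q)
    (hε0 : 0 ≤ ε) (hγ : γ = 4 - 3 * c - 4 * δ) (hγ4 : 0 < γ)
    (hq : q ≤ γ / 30000) (hε : ε ≤ γ / 30000) (hq8 : q ≤ 1 / 8) :
    0 < 4 - 3 * c - (9252 * q + 22 * ε) ∧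
    δ * ((4 + (9252 * q + 22 * ε)) / (1 - 4 * q)) ≤
      (4 - 3 * c - (9252 * q + 22 * ε)) / (1 + 2 * q) := by
  have h0 : 0 < 4 - 3 * c - (9252 * q + 22 * ε) := by linarith
  refine ⟨h0, ?_⟩
  rw [← mul_div_assoc, div_le_div_iff₀ (by linarith) (by linarith)]
  set η := 9252 * q + 22 * ε with hη
  have hη0 : 0 ≤ η := by positivity
  have a1 : δ * (4 + η) * (1 + 2 * q) ≤ 4 * δ + 2 * η + 8 * q := by
    have e : δ * (4 + η) * (1 + 2 * q) = 4 * δ + δ * (η + 8 * q + 2 * (η * q)) := by ring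
    rw [e]
    have b1 : η * q ≤ η * (1 / 8) := mul_le_mul_of_nonneg_left hq8 hη0
    have b2 : 0 ≤ η * q := mul_nonneg hη0 hq0
    have b3 : δ * (η + 8 * q + 2 * (η * q)) ≤ 1 * (η + 8 * q + 2 * (η * q)) :=
      mul_le_mul_of_nonneg_right hδ1 (by positivity)
    linarith
  have hc4 : 4 - 3 * c - η ≤ 4 - 3 * c := by linarith
  have a2 : 4 - 3 * c - η - 4 * q * (4 - 3 * c) ≤ (4 - 3 * c - η) * (1 - 4 * q) := by
    have : (4 - 3 * c - η) * (1 - 4 * q) = 4 - 3 * c - η - 4 * q * (4 - 3 * c) + 4 * (q * η) := by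
      ring
    rw [this]
    have := mul_nonneg hq0 hη0
    linarith
  have a3 : 4 * q * (4 - 3 * c) ≤ 16 * q := by
    have := mul_nonneg hq0 hc
    nlinarith
  have a4 : 3 * η + 24 * q ≤ γ := by rw [hη]; linarith
  linarith

end near

end Pool.Agent.CCM
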