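import Mathlib
import Pool.Agent.CCM.Sec

/-!
Curvature of the metric `Gc` at the origin, and where the cutoff function vanishes (there the
metric is the round metric of curvature four).
-/

set_option autoImplicit false
set_option maxSynthPendingDepth 3

open scoped Manifold ContDiff Topology

namespace Pool.Agent.CCM

open Pool.Agent.Lib_helper77

section origin

variable {d : ℕ} {c ε : ℝ} {f f₁ f₂ : ℝ → ℝ}

theorem Om_zero (u : EE d) : Om (0 : EE d) u = 0 := by
  have := Om_smul (0:ℝ) (0 : EE d) u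
  simpa using this

theorem ddG_origin (h0 : f 0 = 1) (b a e g : EE d) :
    ddG c f f₁ f₂ 0 b a e g = -4 * (inner ℝ b a * inner ℝ e g)
      + c * (Om a e * Om b g + Om b e * Om a g) := by
  unfold ddG ph1
  simp only [norm_zero, inner_zero_left, Om_zero]
  norm_num
  rw [h0]
  ring

theorem curv_origin (h : Cut c ε f f₁ f₂) (h0 : f 0 = 1) (u v w z : EE d) :
    curvCoord (Gc c f) 0 u v w z = 4 * (inner ℝ u w * inner ℝ v z - inner ℝ u z * inner ℝ v w)
      - c * (Om u w * Om v z - Om u z * Om v w + 2 * Om u v * Om w z) := by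
  have hG : ∀ a b : EE d, christoffel (Gc c f) 0 a b = 0 := by
    intro a b
    have := Ga_bound h (y := (0 : EE d)) (by norm_num) a b
    rw [norm_zero] at this
    simpa using this
  have hz : ∀ b : EE d, Gc c f 0 0 b = 0 := by
    intro b
    unfold Gc
    rw [inner_zero_left, Om_zero]
    ring
  unfold curvCoord
  rw [hG, hG, hG, hG, hz, secondDeriv_Gc h.d1 h.d2, secondDeriv_Gc h.d1 h.d2,
    secondDeriv_Gc h.d1 h.d2, secondDeriv_Gc h.d1 h.d2, ddG_origin h0, ddG_origin h0,
    ddG_origin h0, ddG_origin h0]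
  rw [Om_swap u w, Om_swap u v, Om_swap u z, Om_swap v w, Om_swap v z, Om_swap w z]
  ring

theorem sum_origin (h : Cut c ε f f₁ f₂) (h0 : f 0 = 1) :
    ∑ i, ∑ j, curvCoord (Gc c f) 0 (ee i) (ff (d := d) i) (ee j) (ff j)
      = ((d / 2 : ℕ) : ℝ) * (4 - c * (2 * ((d / 2 : ℕ) : ℝ) + 1)) := by
  have hs : ∀ i j : Fin (d / 2), curvCoord (Gc c f) 0 (ee i) (ff (d := d) i) (ee j) (ff j)
      = (if i = j then 4 - c else 0) - 2 * c := by
    intro i j
    rw [curv_origin h h0]
    have h1 : Om (ff (d := d) i) (ee j) = - (if i = j then 1 else 0) := by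
      rw [Om_swap (ee j) (ff i), Om_ee_ff]
      by_cases hij : i = j
      · subst hij; simp
      · rw [if_neg hij, if_neg (Ne.symm hij)]
    have h2 : inner ℝ (ff (d := d) i) (ee j) = 0 := by
      rw [real_inner_comm, inner_ee_ff]
    rw [Om_ee_ee, Om_ff_ff, Om_ee_ff, Om_ee_ff, Om_ee_ff, h1, inner_ee_ee, inner_ff_ff,
      inner_ee_ff, h2]
    by_cases hij : i = j
    · subst hij; simp; ring
    · simp [hij]; ring
  simp only [hs, Finset.sum_sub_distrib, Finset.sum_ite_eq, Finset.mem_univ, if_true,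
    Finset.sum_const, Finset.card_univ, Fintype.card_fin, nsmul_eq_mul]
  ring

end origin

section round

variable {d : ℕ}

/-- The round metric. -/
noncomputable def Gr (y u v : EE d) : ℝ := ph (‖y‖ ^ 2) * inner ℝ u v

theorem Gr_eq : (Gr (d := d)) = Gc 0 (fun _ => 0) := by
  funext y u v
  unfold Gr Gc
  ring

theorem Gr_nice (y : EE d) : Nice (Gr (d := d)) y := by
  rw [Gr_eq]
  exact Gc_nice le_rfl (fun _ => le_rfl) contDiff_const y

/-- The Christoffel symbol of the round metric. -/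
theorem christoffel_Gr (y u v : EE d) : christoffel (Gr (d := d)) y u v
    = (ph1 (‖y‖ ^ 2) / ph (‖y‖ ^ 2)) • (inner ℝ y u • v + inner ℝ y v • u - inner ℝ u v • y) := by
  have hN := Gr_nice (d := d) y
  apply hN.nondeg
  intro w
  rw [hN.christoffel_spec]
  unfold christoffelFirst
  have hd : ∀ a e g : EE d, fderiv ℝ (fun y => Gr y e g) y a
      = 2 * (ph1 (‖y‖ ^ 2) * inner ℝ y a) * inner ℝ e g := by
    intro a e g
    have := fderiv_Gc (c := 0) (f := fun _ => (0:ℝ)) (f₁ := fun _ => 0)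
      (fun t => hasDerivAt_const t 0) y a e g
    rw [Gr_eq, this]
    unfold dG
    ring
  rw [hd, hd, hd]
  unfold Gr
  rw [real_inner_smul_left, inner_sub_left, inner_add_left, real_inner_smul_left,
    real_inner_smul_left, real_inner_smul_left]
  have hp : ph (‖y‖ ^ 2) ≠ 0 := (ph_pos (sq_nonneg _)).ne'
  field_simp

theorem round_orth (y : EE d) {u v : EE d} (huv : inner ℝ u v = 0) :
    curvCoord (Gr (d := d)) y u v u v = 4 * (ph (‖y‖ ^ 2) ^ 2 * (‖u‖ ^ 2 * ‖v‖ ^ 2)) := by
  have hvu : inner ℝ v u = 0 := by rw [real_inner_comm]; exact huv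
  have hcut : Cut 0 0 (fun _ => (0:ℝ)) (fun _ => 0) (fun _ => 0) :=
    { c0 := le_rfl
      c1 := zero_le_one
      e1 := zero_le_one
      sm := contDiff_const
      d1 := fun t => hasDerivAt_const t 0
      d2 := fun t => hasDerivAt_const t 0
      f0 := fun _ => le_rfl
      f1 := fun _ => zero_le_one
      b1 := fun t _ => by simp
      b2 := fun t _ => by simp }
  have h1 := curv_eq hcut y huv
  rw [← Gr_eq] at h1
  rw [h1, christoffel_Gr, christoffel_Gr, christoffel_Gr, christoffel_Gr]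
  unfold T2 Gr
  set q := ‖y‖ ^ 2 with hq
  set a : ℝ := inner ℝ y u with ha
  set b : ℝ := inner ℝ y v with hb
  have hyy : inner ℝ y y = q := real_inner_self_eq_norm_sq y
  have huy : inner ℝ u y = a := real_inner_comm _ _
  have hvy : inner ℝ v y = b := real_inner_comm _ _
  simp only [real_inner_smul_left, real_inner_smul_right, inner_sub_left, inner_sub_right,
    inner_add_left, inner_add_right, huv, hvu, hyy, huy, hvy, real_inner_self_eq_norm_sq]
  have hq0 : 0 ≤ q := sq_nonneg _
  have hp : ph q ≠ 0 := (ph_pos hq0).ne'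
  rw [← ha, ← hb]
  have e1 : ph1 q / ph q = -2 * (1 + q)⁻¹ := by
    unfold ph1 ph
    have : 1 + q ≠ 0 := by positivity
    field_simp
  rw [e1]
  unfold ph1 ph2 ph
  have hq1 : 1 + q ≠ 0 := by positivity
  field_simp
  ring

theorem round_gram (y : EE d) {u v : EE d} (huv : inner ℝ u v = 0) :
    Gr y u u * Gr y v v - Gr y u v ^ 2 = ph (‖y‖ ^ 2) ^ 2 * (‖u‖ ^ 2 * ‖v‖ ^ 2) := by
  unfold Gr
  rw [huv, real_inner_self_eq_norm_sq, real_inner_self_eq_norm_sq]
  ring

theorem sec_round (y : EE d) {u v : EE d} (huv : LinearIndependent ℝ ![u, v]) :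
    curvCoord (Gr (d := d)) y u v u v / (Gr y u u * Gr y v v - Gr y u v ^ 2) = 4 := by
  have hN := Gr_nice (d := d) y
  have hp := inner_perp (li_ne huv) v
  have h1 := round_orth y hp
  have h2 := round_gram y hp
  rw [curv_perp hN.algCurv] at h1
  rw [gram_perp hN] at h2
  rw [h1, h2]
  have h3 : 0 < ph (‖y‖ ^ 2) ^ 2 * (‖u‖ ^ 2 * ‖perp u v‖ ^ 2) := by
    have h4 := ph_pos (sq_nonneg ‖y‖)
    have h5 := norm_pos_iff.mpr (li_ne huv)
    have h6 := norm_pos_iff.mpr (perp_ne huv)
    positivity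
  rw [mul_div_assoc, div_self h3.ne', mul_one]

/-- Where the cutoff function vanishes the metric is round. -/
theorem sec_far {c t₁ : ℝ} {f : ℝ → ℝ} (hf : ∀ t, t₁ ≤ t → f t = 0) {y : EE d}
    (hy : t₁ < ‖y‖ ^ 2) {u v : EE d} (huv : LinearIndependent ℝ ![u, v]) :
    curvCoord (Gc c f) y u v u v / (Gc c f y u u * Gc c f y v v - Gc c f y u v ^ 2) = 4 := by
  have hev : ∀ a b : EE d, (fun y => Gc c f y a b) =ᶠ[𝓝 y] fun y => Gr y a b := by
    intro a b
    have ho : IsOpen {y : EE d | t₁ < ‖y‖ ^ 2} :=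
      isOpen_lt continuous_const (continuous_norm.pow 2)
    filter_upwards [ho.mem_nhds hy] with z hz
    unfold Gc Gr
    rw [hf _ (le_of_lt hz)]
    ring
  have he : ∀ a b : EE d, Gc c f y a b = Gr y a b := fun a b => (hev a b).self_of_nhds
  rw [curvCoord_congr hev, he, he, he]
  exact sec_round y huv

end round

end Pool.Agent.CCM
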