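import Mathlib
import Pool.Agent.CCM.Round

/-!
The sphere as the one-point compactification of Euclidean space, with two charts: the identity and
the inversion.
-/

set_option autoImplicit false
set_option maxSynthPendingDepth 3

open scoped Manifold ContDiff Topology
open Set Filter

namespace Pool.Agent.CCM

open Pool.Agent.Lib_helper77

/-- The inversion in the unit sphere. -/
noncomputable def iv {d : ℕ} (x : EE d) : EE d := EuclideanGeometry.inversion 0 1 x

section inversion

variable {d : ℕ}

theorem iv_iv (x : EE d) : iv (iv x) = x :=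
  EuclideanGeometry.inversion_inversion 0 one_ne_zero x

theorem iv_eq_zero {x : EE d} : iv x = 0 ↔ x = 0 :=
  EuclideanGeometry.inversion_eq_center one_ne_zero

theorem iv_norm (x : EE d) : ‖iv x‖ = ‖x‖⁻¹ := by
  have := EuclideanGeometry.dist_inversion_center (0 : EE d) x 1
  rw [dist_zero_right, dist_zero_right] at this
  unfold iv
  rw [this]
  simp

theorem iv_smooth {x : EE d} (hx : x ≠ 0) : ContDiffAt ℝ ∞ (iv (d := d)) x := by
  unfold iv
  exact ContDiffAt.inversion contDiffAt_const contDiffAt_const contDiffAt_id hx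

theorem iv_cont {x : EE d} (hx : x ≠ 0) : ContinuousAt (iv (d := d)) x :=
  (iv_smooth hx).continuousAt

/-- The derivative of the inversion is conformal. -/
theorem iv_inner {x : EE d} (hx : x ≠ 0) (u v : EE d) :
    inner ℝ (fderiv ℝ (iv (d := d)) x u) (fderiv ℝ (iv (d := d)) x v)
      = (‖x‖ ^ 2)⁻¹ ^ 2 * inner ℝ u v := by
  have h := EuclideanGeometry.hasFDerivAt_inversion (R := 1) hx
  have h2 : fderiv ℝ (iv (d := d)) x = _ := h.fderiv
  rw [h2]
  simp only [ContinuousLinearMap.smul_apply, real_inner_smul_left, real_inner_smul_right]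
  have h3 : inner ℝ ((((ℝ ∙ (x - 0))ᗮ.reflection : EE d →L[ℝ] EE d)) u)
      ((((ℝ ∙ (x - 0))ᗮ.reflection : EE d →L[ℝ] EE d)) v) = (inner ℝ u v : ℝ) :=
    LinearIsometryEquiv.inner_map_map _ u v
  rw [h3, dist_zero_right]
  ring

theorem ph_iv {x : EE d} (hx : x ≠ 0) (u v : EE d) :
    ph (‖iv x‖ ^ 2) * inner ℝ (fderiv ℝ (iv (d := d)) x u) (fderiv ℝ (iv (d := d)) x v)
      = ph (‖x‖ ^ 2) * inner ℝ u v := by
  rw [iv_inner hx, iv_norm]
  unfold ph
  have h := norm_pos_iff.mpr hx
  have h1 : ‖x‖ ≠ 0 := h.ne'
  have h2 : 1 + ‖x‖ ^ 2 ≠ 0 := by positivity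
  have h3 : 1 + (‖x‖⁻¹) ^ 2 ≠ 0 := by positivity
  field_simp
  ring

theorem iv_zero : iv (0 : EE d) = 0 := iv_eq_zero.mpr rfl

theorem tendsto_iv_cocompact : Tendsto (iv (d := d)) (cocompact (EE d)) (𝓝 0) := by
  rw [tendsto_zero_iff_norm_tendsto_zero]
  have : (fun x : EE d => ‖iv x‖) = fun x => ‖x‖⁻¹ := by ext x; exact iv_norm x
  rw [this]
  exact tendsto_inv_atTop_zero.comp (tendsto_norm_cocompact_atTop (E := EE d))

theorem tendsto_iv_zero : Tendsto (iv (d := d)) (𝓝[≠] 0) (cocompact (EE d)) := by
  rw [← Metric.cobounded_eq_cocompact, ← tendsto_norm_atTop_iff_cobounded]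
  have : (fun x : EE d => ‖iv x‖) = fun x => ‖x‖⁻¹ := by ext x; exact iv_norm x
  rw [this]
  have h1 : Tendsto (fun x : EE d => ‖x‖) (𝓝[≠] 0) (𝓝[>] 0) := tendsto_norm_nhdsNE_zero
  exact tendsto_inv_nhdsGT_zero.comp h1

end inversion

/-- The sphere. -/
def SM (d : ℕ) : Type := OnePoint (EE d)

section space

variable {d : ℕ}

instance : TopologicalSpace (SM d) := inferInstanceAs (TopologicalSpace (OnePoint (EE d)))
instance : T2Space (SM d) := inferInstanceAs (T2Space (OnePoint (EE d)))
instance : CompactSpace (SM d) := inferInstanceAs (CompactSpace (OnePoint (EE d)))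

/-- The point at infinity. -/
def pinf : SM d := (OnePoint.infty : OnePoint (EE d))

/-- The finite points. -/
def pt (x : EE d) : SM d := (x : OnePoint (EE d))

/-- The sphere is homeomorphic to the unit sphere. -/
noncomputable def toSphere (d : ℕ) :
    SM d ≃ₜ Metric.sphere (0 : EuclideanSpace ℝ (Fin (d + 1))) 1 :=
  onePointEquivSphereOfFinrankEq (ι := Fin (d + 1)) (V := EE d) (by simp)

instance : SecondCountableTopology (SM d) := (toSphere d).secondCountableTopology

theorem pt_inj {x y : EE d} (h : pt x = pt y) : x = y := OnePoint.coe_injective h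

theorem pt_ne (x : EE d) : pt x ≠ pinf := OnePoint.coe_ne_infty x

theorem SM.ind {P : SM d → Prop} (h1 : P pinf) (h2 : ∀ x, P (pt x)) (p : SM d) : P p :=
  OnePoint.rec h1 h2 p

open Classical in
/-- The inversion as a self-map of the sphere. -/
noncomputable def sg (p : SM d) : SM d :=
  OnePoint.elim p (pt 0) (fun x => if x = 0 then pinf else pt (iv x))

theorem sg_inf : sg (pinf : SM d) = pt 0 := rfl

theorem sg_zero : sg (pt 0 : SM d) = pinf := by
  change (if (0 : EE d) = 0 then pinf else pt (iv 0)) = pinf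
  rw [if_pos rfl]

theorem sg_pt {x : EE d} (hx : x ≠ 0) : sg (pt x) = pt (iv x) := by
  change (if x = 0 then pinf else pt (iv x)) = pt (iv x)
  rw [if_neg hx]

theorem sg_sg (p : SM d) : sg (sg p) = p := by
  induction p using SM.ind with
  | h1 => rw [sg_inf, sg_zero]
  | h2 x =>
    by_cases hx : x = 0
    · subst hx; rw [sg_zero, sg_inf]
    · rw [sg_pt hx, sg_pt (by rw [Ne, iv_eq_zero]; exact hx), iv_iv]

theorem pt_cont : Continuous (pt (d := d)) := OnePoint.continuous_coe

theorem pt_open : Topology.IsOpenEmbedding (pt (d := d)) := OnePoint.isOpenEmbedding_coe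

theorem sg_continuous : Continuous (sg (d := d)) := by
  rw [continuous_iff_continuousAt]
  intro p
  induction p using SM.ind with
  | h1 =>
    have h : ContinuousAt (X := OnePoint (EE d)) (Y := SM d) sg OnePoint.infty := by
      rw [OnePoint.continuousAt_infty']
      rw [Filter.coclosedCompact_eq_cocompact]
      have h1 : Tendsto (fun x : EE d => pt (iv x)) (cocompact (EE d)) (𝓝 (pt 0)) :=
        (pt_cont.tendsto 0).comp tendsto_iv_cocompact
      refine h1.congr' ?_
      have h2 : ∀ᶠ x in cocompact (EE d), x ≠ 0 := by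
        have := (isCompact_singleton (x := (0 : EE d))).compl_mem_cocompact
        filter_upwards [this] with x hx
        exact hx
      filter_upwards [h2] with x hx
      exact (sg_pt hx).symm
    exact h
  | h2 x =>
    have h : ContinuousAt (X := OnePoint (EE d)) (Y := SM d) sg (x : OnePoint (EE d)) := by
      rw [OnePoint.continuousAt_coe]
      by_cases hx : x = 0
      · subst hx
        have e : ((sg : SM d → SM d) ∘ (fun x : EE d => (pt x))) 0 = pinf := sg_zero
        have h1 : Tendsto ((sg : SM d → SM d) ∘ (fun x : EE d => (pt x))) (𝓝 0) (𝓝 pinf) := by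
          rw [← nhdsNE_sup_pure, tendsto_sup]
          constructor
          · have h2 : Tendsto (fun x : EE d => pt (iv x)) (𝓝[≠] 0) (𝓝 pinf) := by
              have h3 : Tendsto (pt (d := d)) (coclosedCompact (EE d)) (𝓝 pinf) :=
                OnePoint.tendsto_coe_infty
              rw [Filter.coclosedCompact_eq_cocompact] at h3
              exact h3.comp tendsto_iv_zero
            refine h2.congr' ?_
            filter_upwards [self_mem_nhdsWithin] with x hx
            exact (sg_pt hx).symm
          · rw [← e]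
            exact tendsto_pure_nhds _ _
        have h4 : ContinuousAt ((sg : SM d → SM d) ∘ (fun x : EE d => (pt x))) 0 := by
          unfold ContinuousAt
          rw [e]
          exact h1
        exact h4
      · have h1 : ContinuousAt (fun x : EE d => pt (iv x)) x :=
          pt_cont.continuousAt.comp (iv_cont hx)
        have h2 : ((sg : SM d → SM d) ∘ (fun x : EE d => (pt x))) =ᶠ[𝓝 x]
            (fun x : EE d => pt (iv x)) := by
          filter_upwards [isOpen_ne.mem_nhds hx] with y hy
          exact sg_pt hy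
        exact h1.congr h2.symm
    exact h

/-- The inversion as a homeomorphism of the sphere. -/
noncomputable def sgH (d : ℕ) : SM d ≃ₜ SM d where
  toFun := sg
  invFun := sg
  left_inv := sg_sg
  right_inv := sg_sg
  continuous_toFun := sg_continuous
  continuous_invFun := sg_continuous

/-- The chart away from infinity. -/
noncomputable def c0 (d : ℕ) : OpenPartialHomeomorph (SM d) (EE d) :=
  (pt_open.toOpenPartialHomeomorph (pt (d := d))).symm

/-- The chart away from zero. -/
noncomputable def c1 (d : ℕ) : OpenPartialHomeomorph (SM d) (EE d) :=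
  (sgH d).transOpenPartialHomeomorph (c0 d)

theorem c0_source : (c0 d).source = range pt := by
  unfold c0
  simp

theorem c0_target : (c0 d).target = univ := by
  unfold c0
  simp

theorem c0_symm (x : EE d) : (c0 d).symm x = pt x := rfl

theorem c0_pt (x : EE d) : c0 d (pt x) = x :=
  pt_open.toOpenPartialHomeomorph_left_inv

theorem c1_source : (c1 d).source = sg ⁻¹' (range pt) := by
  have : (c1 d).source = sg ⁻¹' (c0 d).source := rfl
  rw [this, c0_source]

theorem c1_target : (c1 d).target = univ := c0_target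

theorem c1_symm (x : EE d) : (c1 d).symm x = sg (pt x) := rfl

theorem c1_apply (p : SM d) : c1 d p = c0 d (sg p) := rfl

theorem c1_inf : c1 d pinf = 0 := by rw [c1_apply, sg_inf, c0_pt]

noncomputable instance : ChartedSpace (EE d) (SM d) where
  atlas := {c0 d, c1 d}
  chartAt p := OnePoint.elim p (c1 d) (fun _ => c0 d)
  mem_chart_source p := by
    induction p using SM.ind with
    | h1 =>
      change pinf ∈ (c1 d).source
      rw [c1_source, mem_preimage, sg_inf]
      exact mem_range_self _
    | h2 x =>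
      change pt x ∈ (c0 d).source
      rw [c0_source]
      exact mem_range_self _
  chart_mem_atlas p := by
    induction p using SM.ind with
    | h1 =>
      change c1 d ∈ ({c0 d, c1 d} : Set _)
      simp
    | h2 x =>
      change c0 d ∈ ({c0 d, c1 d} : Set _)
      simp

theorem chart_inf : chartAt (EE d) (pinf : SM d) = c1 d := rfl

theorem chart_pt (x : EE d) : chartAt (EE d) (pt x : SM d) = c0 d := rfl

theorem c0_sg {x : EE d} (hx : x ≠ 0) : c0 d (sg (pt x)) = iv x := by
  rw [sg_pt hx, c0_pt]

theorem sg_mem {x : EE d} : sg (pt x) ∈ range (pt (d := d)) ↔ x ≠ 0 := by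
  constructor
  · rintro ⟨y, hy⟩ hx
    subst hx
    rw [sg_zero] at hy
    exact pt_ne y hy
  · intro hx
    rw [sg_pt hx]
    exact mem_range_self _

instance : IsManifold 𝓘(ℝ, EE d) ∞ (SM d) := by
  apply isManifold_of_contDiffOn
  intro e e' he he'
  have hiv : ∀ e e' : OpenPartialHomeomorph (SM d) (EE d),
      (∀ x ∈ (e.symm ≫ₕ e').source, x ≠ 0) → (∀ x, x ≠ 0 → (e.symm ≫ₕ e') x = iv x) →
      ContDiffOn ℝ ∞ (𝓘(ℝ, EE d) ∘ e.symm ≫ₕ e' ∘ 𝓘(ℝ, EE d).symm)
        (𝓘(ℝ, EE d).symm ⁻¹' (e.symm ≫ₕ e').source ∩ range 𝓘(ℝ, EE d)) := by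
    intro e e' h1 h2 x hx
    have hx1 : x ∈ (e.symm ≫ₕ e').source := hx.1
    have hx0 := h1 x hx1
    apply ContDiffAt.contDiffWithinAt
    refine (iv_smooth hx0).congr_of_eventuallyEq ?_
    filter_upwards [isOpen_ne.mem_nhds hx0] with y hy
    exact h2 y hy
  have hid : ∀ e e' : OpenPartialHomeomorph (SM d) (EE d),
      (∀ x, (e.symm ≫ₕ e') x = x) →
      ContDiffOn ℝ ∞ (𝓘(ℝ, EE d) ∘ e.symm ≫ₕ e' ∘ 𝓘(ℝ, EE d).symm)
        (𝓘(ℝ, EE d).symm ⁻¹' (e.symm ≫ₕ e').source ∩ range 𝓘(ℝ, EE d)) := by
    intro e e' h2 x hx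
    apply ContDiffAt.contDiffWithinAt
    refine contDiffAt_id.congr_of_eventuallyEq ?_
    filter_upwards with y
    exact h2 y
  have hsrc : ∀ x : EE d, x ∈ ((c0 d).symm ≫ₕ c1 d).source → x ≠ 0 := by
    intro x hx
    rw [OpenPartialHomeomorph.trans_source] at hx
    have := hx.2
    rw [mem_preimage, c1_source, c0_symm, mem_preimage] at this
    exact sg_mem.mp this
  have hsrc' : ∀ x : EE d, x ∈ ((c1 d).symm ≫ₕ c0 d).source → x ≠ 0 := by
    intro x hx
    rw [OpenPartialHomeomorph.trans_source] at hx
    have := hx.2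
    rw [mem_preimage, c0_source, c1_symm] at this
    exact sg_mem.mp this
  rcases he with rfl | he
  · rcases he' with rfl | he'
    · exact hid _ _ (fun x => c0_pt x)
    · rw [mem_singleton_iff] at he'
      subst he'
      exact hiv _ _ hsrc (fun x hx => c0_sg hx)
  · rw [mem_singleton_iff] at he
    subst he
    rcases he' with rfl | he'
    · exact hiv _ _ hsrc' (fun x hx => c0_sg hx)
    · rw [mem_singleton_iff] at he'
      subst he'
      refine hid _ _ (fun x => ?_)
      change c0 d (sg (sg (pt x))) = x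
      rw [sg_sg, c0_pt]

end space

end Pool.Agent.CCM
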