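import Mathlib
import Pool.Agent.CCM.Sphere

/-!
The metric on the sphere.
-/

set_option autoImplicit false
set_option maxSynthPendingDepth 3

open scoped Manifold ContDiff Topology
open Set Filter Bundle

namespace Pool.Agent.CCM

open Pool.Agent.Lib_helper77

variable {d : ℕ}

theorem ext_coe (p : SM d) (b : SM d) :
    extChartAt 𝓘(ℝ, EE d) p b = chartAt (EE d) p b := rfl

theorem ext_source (p : SM d) : (extChartAt 𝓘(ℝ, EE d) p).source = (chartAt (EE d) p).source :=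
  extChartAt_source _ p

theorem ext_target (p : SM d) : (extChartAt 𝓘(ℝ, EE d) p).target = univ := by
  induction p using SM.ind with
  | h1 =>
    rw [extChartAt_target, chart_inf, c1_target]
    simp
  | h2 x =>
    rw [extChartAt_target, chart_pt, c0_target]
    simp

theorem ext_symm (p : SM d) (x : EE d) :
    (extChartAt 𝓘(ℝ, EE d) p).symm x = (chartAt (EE d) p).symm x := rfl

/-- The derivative of the inverse of a chart. -/
theorem mfd (p : SM d) (x u : EE d) :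
    (mfderiv 𝓘(ℝ, EE d) 𝓘(ℝ, EE d) (extChartAt 𝓘(ℝ, EE d) p).symm x u : EE d)
      = fderiv ℝ (fun z : EE d => chartAt (EE d) ((chartAt (EE d) p).symm x)
          ((chartAt (EE d) p).symm z)) x u := by
  have h1 : ContMDiffAt 𝓘(ℝ, EE d) 𝓘(ℝ, EE d) ∞ (extChartAt 𝓘(ℝ, EE d) p).symm x := by
    apply (contMDiffOn_extChartAt_symm (n := ∞) p).contMDiffAt
    rw [ext_target]
    exact univ_mem
  have h2 : MDifferentiableAt 𝓘(ℝ, EE d) 𝓘(ℝ, EE d) (extChartAt 𝓘(ℝ, EE d) p).symm x :=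
    h1.mdifferentiableAt (by simp)
  have h3 := h2.mfderiv
  have h4 : fderivWithin ℝ (writtenInExtChartAt 𝓘(ℝ, EE d) 𝓘(ℝ, EE d) x
      (extChartAt 𝓘(ℝ, EE d) p).symm) (range 𝓘(ℝ, EE d)) (extChartAt 𝓘(ℝ, EE d) x x)
      = fderiv ℝ (fun z : EE d => chartAt (EE d) ((chartAt (EE d) p).symm x)
          ((chartAt (EE d) p).symm z)) x := by
    have hr : range (𝓘(ℝ, EE d) : EE d → EE d) = univ := by simp
    rw [hr, fderivWithin_univ]
    rfl
  rw [h4] at h3
  exact congrArg (fun L : EE d →L[ℝ] EE d => L u) h3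

theorem mfd_pt (y x u : EE d) :
    (mfderiv 𝓘(ℝ, EE d) 𝓘(ℝ, EE d) (extChartAt 𝓘(ℝ, EE d) (pt y : SM d)).symm x u : EE d)
      = u := by
  have h := mfd (pt y) x u
  have e : (fun z : EE d => chartAt (EE d) ((chartAt (EE d) (pt y : SM d)).symm x)
          ((chartAt (EE d) (pt y : SM d)).symm z)) = id := by
    funext z
    exact c0_pt z
  rw [e] at h
  rw [h]
  simp

theorem mfd_inf_zero (u : EE d) :
    (mfderiv 𝓘(ℝ, EE d) 𝓘(ℝ, EE d) (extChartAt 𝓘(ℝ, EE d) (pinf : SM d)).symm 0 u : EE d)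
      = u := by
  have h := mfd pinf 0 u
  have e0 : (chartAt (EE d) (pinf : SM d)).symm 0 = pinf := by
    change sg (pt 0) = pinf
    exact sg_zero
  have e : (fun z : EE d => chartAt (EE d) ((chartAt (EE d) (pinf : SM d)).symm 0)
          ((chartAt (EE d) (pinf : SM d)).symm z)) = id := by
    funext z
    rw [e0]
    change c0 d (sg (sg (pt z))) = z
    rw [sg_sg, c0_pt]
  rw [e] at h
  rw [h]
  simp

theorem mfd_inf {x : EE d} (hx : x ≠ 0) (u : EE d) :
    (mfderiv 𝓘(ℝ, EE d) 𝓘(ℝ, EE d) (extChartAt 𝓘(ℝ, EE d) (pinf : SM d)).symm x u : EE d)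
      = fderiv ℝ (iv (d := d)) x u := by
  have h := mfd pinf x u
  have e0 : (chartAt (EE d) (pinf : SM d)).symm x = pt (iv x) := by
    change sg (pt x) = pt (iv x)
    exact sg_pt hx
  have e : (fun z : EE d => chartAt (EE d) ((chartAt (EE d) (pinf : SM d)).symm x)
          ((chartAt (EE d) (pinf : SM d)).symm z)) =ᶠ[𝓝 x] iv := by
    filter_upwards [isOpen_ne.mem_nhds hx] with z hz
    rw [e0]
    change c0 d (sg (pt z)) = iv z
    exact c0_sg hz
  rw [e.fderiv_eq] at h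
  exact h

/-- The metric at a point. -/
noncomputable def gin (c : ℝ) (f : ℝ → ℝ) (p : SM d) : EE d →L[ℝ] EE d →L[ℝ] ℝ :=
  OnePoint.elim p (inL (EE d)) (fun x => GcL c f x)

theorem gin_inf (c : ℝ) (f : ℝ → ℝ) : gin c f (pinf : SM d) = inL (EE d) := rfl

theorem gin_pt (c : ℝ) (f : ℝ → ℝ) (x : EE d) : gin c f (pt x : SM d) = GcL c f x := rfl

theorem ph_zero : ph 0 = 1 := by unfold ph; norm_num

/-- The metric in the chart at infinity. -/
theorem chart_inf_metric {c t₁ : ℝ} {f : ℝ → ℝ} (hf : ∀ t, t₁ ≤ t → f t = 0)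
    {x : EE d} (hx : x ≠ 0) (hx1 : t₁ ≤ (‖x‖⁻¹) ^ 2) (u v : EE d) :
    GcL c f (iv x) (fderiv ℝ (iv (d := d)) x u) (fderiv ℝ (iv (d := d)) x v)
      = ph (‖x‖ ^ 2) * inner ℝ u v := by
  rw [GcL_apply]
  unfold Gc
  rw [ph_iv hx, hf _ (by rw [iv_norm]; exact hx1)]
  ring

theorem triv_sym (p b : SM d) (hb : b ∈ (chartAt (EE d) p).source) (u : EE d) :
    ((trivializationAt (EE d) (fun x : SM d => TangentSpace 𝓘(ℝ, EE d) x) p).symm b u : EE d)
      = (mfderiv 𝓘(ℝ, EE d) 𝓘(ℝ, EE d) (extChartAt 𝓘(ℝ, EE d) p).symm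
          (chartAt (EE d) p b) u : EE d) := by
  let F : SM d → EE d → EE d := fun b u =>
    (trivializationAt (EE d) (fun x : SM d => TangentSpace 𝓘(ℝ, EE d) x) p).symm b u
  have hy : chartAt (EE d) p b ∈ (extChartAt 𝓘(ℝ, EE d) p).target := by
    rw [ext_target]; trivial
  have h1 : F ((extChartAt 𝓘(ℝ, EE d) p).symm (chartAt (EE d) p b)) u
      = (mfderiv 𝓘(ℝ, EE d) 𝓘(ℝ, EE d) (extChartAt 𝓘(ℝ, EE d) p).symm
          (chartAt (EE d) p b) u : EE d) := symm_eq_mfderiv p hy u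
  have h2 : (extChartAt 𝓘(ℝ, EE d) p).symm (chartAt (EE d) p b) = b :=
    (chartAt (EE d) p).left_inv hb
  rw [h2] at h1
  exact h1

/-- A neighbourhood of infinity. -/
theorem nhds_inf (r : ℝ) : {b : SM d | b = pinf ∨ ∃ x : EE d, r < ‖x‖ ^ 2 ∧ b = pt x} ∈ 𝓝 pinf := by
  have h1 : {x : EE d | r < ‖x‖ ^ 2} ∈ cocompact (EE d) := by
    have h2 : Tendsto (fun x : EE d => ‖x‖ ^ 2) (cocompact (EE d)) atTop :=
      (tendsto_pow_atTop two_ne_zero).comp (tendsto_norm_cocompact_atTop (E := EE d))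
    exact h2 (Ioi_mem_atTop r)
  have h3 : 𝓝 (pinf : SM d) = map pt (coclosedCompact (EE d)) ⊔ pure pinf :=
    OnePoint.nhds_infty_eq
  rw [h3, Filter.coclosedCompact_eq_cocompact]
  refine ⟨?_, ?_⟩
  · rw [mem_map]
    filter_upwards [h1] with x hx
    exact Or.inr ⟨x, hx, rfl⟩
  · exact Or.inl rfl

/-- Hypotheses on the cutoff function. -/
structure Cut' (c t₁ : ℝ) (f : ℝ → ℝ) : Prop where
  c0 : 0 ≤ c
  sm : ContDiff ℝ ∞ f
  f0 : ∀ t, 0 ≤ f t
  t0 : 0 < t₁
  z : ∀ t, t₁ ≤ t → f t = 0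

theorem gin_symm {c t₁ : ℝ} {f : ℝ → ℝ} (h : Cut' c t₁ f) (b : SM d) (v w : EE d) :
    gin c f b v w = gin c f b w v := by
  induction b using SM.ind with
  | h1 =>
    rw [gin_inf, inL_apply, inL_apply, real_inner_comm]
  | h2 x =>
    rw [gin_pt, GcL_apply, GcL_apply]
    exact (Gc_nice h.c0 h.f0 h.sm x).symm x v w

theorem gin_low {c t₁ : ℝ} {f : ℝ → ℝ} (h : Cut' c t₁ f) (b : SM d) :
    ∃ m : ℝ, 0 < m ∧ ∀ v : EE d, m * ‖v‖ ^ 2 ≤ gin c f b v v := by
  induction b using SM.ind with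
  | h1 =>
    refine ⟨1, one_pos, fun v => ?_⟩
    rw [gin_inf, inL_apply, real_inner_self_eq_norm_sq, one_mul]
  | h2 x =>
    refine ⟨ph (‖x‖ ^ 2), ph_pos (sq_nonneg _), fun v => ?_⟩
    rw [gin_pt, GcL_apply]
    exact Gc_ge h.c0 h.f0 x v

theorem gin_pos {c t₁ : ℝ} {f : ℝ → ℝ} (h : Cut' c t₁ f) (b : SM d) {v : EE d} (hv : v ≠ 0) :
    0 < gin c f b v v := by
  obtain ⟨m, hm, hm2⟩ := gin_low h b
  have h1 := norm_pos_iff.mpr hv
  exact lt_of_lt_of_le (by positivity) (hm2 v)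

theorem gin_bdd {c t₁ : ℝ} {f : ℝ → ℝ} (h : Cut' c t₁ f) (b : SM d) :
    Bornology.IsVonNBounded ℝ {v : EE d | gin c f b v v < 1} := by
  obtain ⟨m, hm, hm2⟩ := gin_low h b
  rw [NormedSpace.isVonNBounded_iff]
  apply (Metric.isBounded_ball (x := (0 : EE d)) (r := 1 + m⁻¹)).subset
  intro v hv
  have h1 := hm2 v
  have h2 : gin c f b v v < 1 := hv
  rw [mem_ball_zero_iff]
  have h3 : m * ‖v‖ ^ 2 < 1 := lt_of_le_of_lt h1 h2
  by_contra hcon
  push Not at hcon
  have h5 : 0 < m⁻¹ := inv_pos.mpr hm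
  have h6 : (1 + m⁻¹) ^ 2 ≤ ‖v‖ ^ 2 := pow_le_pow_left₀ (by positivity) hcon 2
  have h7 : m * (1 + m⁻¹) ^ 2 = m + 2 + m⁻¹ := by
    field_simp
    ring
  have h8 := mul_le_mul_of_nonneg_left h6 hm.le
  rw [h7] at h8
  linarith

theorem inCoord_eq (c : ℝ) (f : ℝ → ℝ) (p b : SM d) (hb : b ∈ (chartAt (EE d) p).source)
    (u v : EE d) :
    ContinuousLinearMap.inCoordinates (EE d) (fun x : SM d => TangentSpace 𝓘(ℝ, EE d) x)
      (EE d →L[ℝ] ℝ) (fun x : SM d => TangentSpace 𝓘(ℝ, EE d) x →L[ℝ] ℝ) p b p b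
      (gin c f b) u v
    = gin c f b
      (mfderiv 𝓘(ℝ, EE d) 𝓘(ℝ, EE d) (extChartAt 𝓘(ℝ, EE d) p).symm (chartAt (EE d) p b) u : EE d)
      (mfderiv 𝓘(ℝ, EE d) 𝓘(ℝ, EE d) (extChartAt 𝓘(ℝ, EE d) p).symm (chartAt (EE d) p b) v : EE d)
      := by
  have h2 := inCoordinates_apply_eq₂ (𝕜 := ℝ)
    (F₁ := EE d) (E₁ := fun x : SM d => TangentSpace 𝓘(ℝ, EE d) x) (F₂ := EE d)
    (E₂ := fun x : SM d => TangentSpace 𝓘(ℝ, EE d) x) (F₃ := ℝ)
    (E₃ := Bundle.Trivial (SM d) ℝ) (x₀ := p) (x := b)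
    (ϕ := gin c f b) (v := u) (w := v) (by simpa using hb) (by simpa using hb) (by simp)
  refine Eq.trans h2 ?_
  have e1 := triv_sym p b hb u
  have e2 := triv_sym p b hb v
  rw [e1, e2]
  simp
  rfl

/-- The metric on the sphere. -/
noncomputable def gS {c t₁ : ℝ} {f : ℝ → ℝ} (h : Cut' c t₁ f) : RMetric (EE d) (SM d) where
  inner b := (gin c f b : EE d →L[ℝ] EE d →L[ℝ] ℝ)
  symm b v w := gin_symm h b v w
  pos b v hv := gin_pos h b hv
  isVonNBounded b := gin_bdd h b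
  contMDiff := by
    intro p
    rw [contMDiffAt_hom_bundle]
    refine ⟨contMDiffAt_id, ?_⟩
    have hchart : ContMDiffAt 𝓘(ℝ, EE d) 𝓘(ℝ, EE d) ∞ (chartAt (EE d) p) p :=
      contMDiffAt_extChartAt (I := 𝓘(ℝ, EE d)) (n := ∞)
    revert hchart
    induction p using SM.ind with
    | h1 =>
      intro hchart
      have h1 : ContMDiffAt 𝓘(ℝ, EE d) 𝓘(ℝ, EE d →L[ℝ] EE d →L[ℝ] ℝ) ∞
          (fun b : SM d => ph (‖chartAt (EE d) pinf b‖ ^ 2) • inL (EE d)) pinf := by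
        have h2 : ContDiff ℝ ∞ (fun y : EE d => ph (‖y‖ ^ 2) • inL (EE d)) :=
          ph_smooth.smul contDiff_const
        exact h2.contMDiff.contMDiffAt.comp _ hchart
      refine h1.congr_of_eventuallyEq ?_
      filter_upwards [nhds_inf (d := d) (max t₁ 1)] with b hb
      ext u v
      rcases hb with rfl | ⟨x, hx, rfl⟩
      · have hs : (pinf : SM d) ∈ (chartAt (EE d) (pinf : SM d)).source := mem_chart_source _ _
        refine Eq.trans (inCoord_eq c f pinf pinf hs u v) ?_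
        have e0 : chartAt (EE d) (pinf : SM d) pinf = 0 := c1_inf
        rw [e0, mfd_inf_zero, mfd_inf_zero, gin_inf, norm_zero]
        norm_num
        rw [ph_zero, one_mul]
      · have hx0 : x ≠ 0 := by
          rintro rfl
          rw [norm_zero] at hx
          have := le_max_right t₁ 1
          norm_num at hx
        have hs : (pt x : SM d) ∈ (chartAt (EE d) (pinf : SM d)).source := by
          rw [chart_inf, c1_source, mem_preimage]
          exact sg_mem.mpr hx0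
        refine Eq.trans (inCoord_eq c f pinf (pt x) hs u v) ?_
        have e0 : chartAt (EE d) (pinf : SM d) (pt x) = iv x := by
          rw [chart_inf, c1_apply]
          exact c0_sg hx0
        have hi0 : iv x ≠ 0 := by rw [Ne, iv_eq_zero]; exact hx0
        rw [e0, mfd_inf hi0, mfd_inf hi0, gin_pt]
        have h3 := chart_inf_metric (c := c) h.z hi0 (by
          rw [iv_norm, inv_inv]
          exact (le_max_left t₁ 1).trans hx.le) u v
        rw [iv_iv] at h3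
        rw [h3]
        rfl
    | h2 x =>
      intro hchart
      have h1 : ContMDiffAt 𝓘(ℝ, EE d) 𝓘(ℝ, EE d →L[ℝ] EE d →L[ℝ] ℝ) ∞
          (fun b : SM d => GcL c f (chartAt (EE d) (pt x) b)) (pt x) :=
        (GcL_smooth h.sm).contMDiff.contMDiffAt.comp _ hchart
      refine h1.congr_of_eventuallyEq ?_
      have hr : range (pt (d := d)) ∈ 𝓝 (pt x) := pt_open.isOpen_range.mem_nhds (mem_range_self x)
      filter_upwards [hr] with b hb
      obtain ⟨y, rfl⟩ := hb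
      ext u v
      have hs : (pt y : SM d) ∈ (chartAt (EE d) (pt x : SM d)).source := by
        rw [chart_pt, c0_source]
        exact mem_range_self y
      refine Eq.trans (inCoord_eq c f (pt x) (pt y) hs u v) ?_
      have e0 : chartAt (EE d) (pt x : SM d) (pt y) = y := c0_pt y
      rw [e0, mfd_pt, mfd_pt, gin_pt]

theorem coord_pt {c t₁ : ℝ} {f : ℝ → ℝ} (h : Cut' c t₁ f) (y x u v : EE d) :
    coordMetric (gS (d := d) h) (pt y) x u v = Gc c f x u v := by
  have h1 : coordMetric (gS (d := d) h) (pt y) x u v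
      = gin c f ((extChartAt 𝓘(ℝ, EE d) (pt y : SM d)).symm x)
        (mfderiv 𝓘(ℝ, EE d) 𝓘(ℝ, EE d) (extChartAt 𝓘(ℝ, EE d) (pt y : SM d)).symm x u : EE d)
        (mfderiv 𝓘(ℝ, EE d) 𝓘(ℝ, EE d) (extChartAt 𝓘(ℝ, EE d) (pt y : SM d)).symm x v : EE d) :=
    rfl
  rw [h1, mfd_pt, mfd_pt]
  exact GcL_apply c f x u v

theorem coord_inf {c t₁ : ℝ} {f : ℝ → ℝ} (h : Cut' c t₁ f) {x : EE d}
    (hx : x = 0 ∨ t₁ ≤ (‖x‖⁻¹) ^ 2) (u v : EE d) :
    coordMetric (gS (d := d) h) pinf x u v = Gr x u v := by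
  have h1 : coordMetric (gS (d := d) h) pinf x u v
      = gin c f ((extChartAt 𝓘(ℝ, EE d) (pinf : SM d)).symm x)
        (mfderiv 𝓘(ℝ, EE d) 𝓘(ℝ, EE d) (extChartAt 𝓘(ℝ, EE d) (pinf : SM d)).symm x u : EE d)
        (mfderiv 𝓘(ℝ, EE d) 𝓘(ℝ, EE d) (extChartAt 𝓘(ℝ, EE d) (pinf : SM d)).symm x v : EE d) :=
    rfl
  rw [h1]
  by_cases h0 : x = 0
  · subst h0
    rw [mfd_inf_zero, mfd_inf_zero]
    have e0 : (extChartAt 𝓘(ℝ, EE d) (pinf : SM d)).symm 0 = pinf := by
      change sg (pt 0) = pinf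
      exact sg_zero
    rw [e0, gin_inf]
    unfold Gr
    rw [norm_zero, inL_apply]
    norm_num
    rw [ph_zero, one_mul]
  · have hx1 := hx.resolve_left h0
    rw [mfd_inf h0, mfd_inf h0]
    have e0 : (extChartAt 𝓘(ℝ, EE d) (pinf : SM d)).symm x = pt (iv x) := by
      change sg (pt x) = pt (iv x)
      exact sg_pt h0
    rw [e0, gin_pt]
    exact chart_inf_metric h.z h0 hx1 u v

theorem riem_pt {c t₁ : ℝ} {f : ℝ → ℝ} (h : Cut' c t₁ f) (y u v w z : EE d) :
    riemann (gS (d := d) h) (pt y) u v w z = curvCoord (Gc c f) y u v w z := by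
  have h1 : riemann (gS (d := d) h) (pt y) u v w z
      = curvCoord (coordMetric (gS (d := d) h) (pt y)) (c0 d (pt y)) u v w z := rfl
  rw [h1, c0_pt]
  apply curvCoord_congr
  intro a b
  filter_upwards with x
  exact coord_pt h y x a b

theorem sec_pt {c t₁ : ℝ} {f : ℝ → ℝ} (h : Cut' c t₁ f) (y u v : EE d) :
    sectional (gS (d := d) h) (pt y) u v = curvCoord (Gc c f) y u v u v /
      (Gc c f y u u * Gc c f y v v - Gc c f y u v ^ 2) := by
  have h1 : sectional (gS (d := d) h) (pt y) u v = riemann (gS (d := d) h) (pt y) u v u v /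
      (GcL c f y u u * GcL c f y v v - GcL c f y u v ^ 2) := rfl
  rw [h1, riem_pt, GcL_apply, GcL_apply, GcL_apply]

theorem sec_inf {c t₁ : ℝ} {f : ℝ → ℝ} (h : Cut' c t₁ f) {u v : EE d}
    (huv : LinearIndependent ℝ ![u, v]) :
    sectional (gS (d := d) h) pinf u v = 4 := by
  have hG : ∀ a b : EE d, inL (EE d) a b = Gr (0 : EE d) a b := by
    intro a b
    unfold Gr
    rw [norm_zero, inL_apply]
    norm_num
    rw [ph_zero, one_mul]
  have h1 : sectional (gS (d := d) h) pinf u v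
      = curvCoord (coordMetric (gS (d := d) h) pinf) (c1 d pinf) u v u v /
      (inL (EE d) u u * inL (EE d) v v - inL (EE d) u v ^ 2) := rfl
  rw [h1, c1_inf, hG, hG, hG]
  rw [curvCoord_congr (G₂ := Gr (d := d)) (x := 0)]
  · exact sec_round 0 huv
  · intro a b
    have ho : IsOpen {y : EE d | t₁ * ‖y‖ ^ 2 < 1} :=
      isOpen_lt (continuous_const.mul (continuous_norm.pow 2)) continuous_const
    have h0 : (0 : EE d) ∈ {y : EE d | t₁ * ‖y‖ ^ 2 < 1} := by
      simp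
    filter_upwards [ho.mem_nhds h0] with x hx
    apply coord_inf
    by_cases hx0 : x = 0
    · exact Or.inl hx0
    · right
      have h2 := norm_pos_iff.mpr hx0
      have hx' : t₁ * ‖x‖ ^ 2 < 1 := hx
      rw [inv_pow, ← one_div, le_div_iff₀ (by positivity)]
      exact hx'.le

end Pool.Agent.CCM
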