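import Mathlib
import Pool.Agent.CCM.SMetric
import Pool.Agent.Lib_helper77.CurvUpper

/-!
Pinching constants for closed manifolds and for spheres, with pointwise or global pinching.
-/

set_option autoImplicit false
set_option maxSynthPendingDepth 3

open scoped Manifold ContDiff Topology
open Set Filter Bundle

namespace Pool.Agent.CCM

open Pool.Agent.Lib_helper77

section defs

variable {E : Type} [NormedAddCommGroup E] [NormedSpace ℝ E]
  {M : Type} [TopologicalSpace M] [ChartedSpace E M] [IsManifold 𝓘(ℝ, E) ∞ M]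

/-- Global `δ`-pinching: all sectional curvatures are positive, and `δ * K(σ') ≤ K(σ)` for all
tangent planes `σ, σ'`, at whatever points of the manifold. -/
def GloballyPinched (g : RMetric E M) (δ : ℝ) : Prop :=
  (∀ (p : M) (u v : TangentSpace 𝓘(ℝ, E) p), LinearIndependent ℝ ![u, v] →
    0 < sectional g p u v) ∧
  ∀ (p p' : M) (u v : TangentSpace 𝓘(ℝ, E) p) (u' v' : TangentSpace 𝓘(ℝ, E) p'),
    LinearIndependent ℝ ![u, v] → LinearIndependent ℝ ![u', v'] →
    δ * sectional g p' u' v' ≤ sectional g p u v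

/-- Nonnegativity of the curvature operator: `R^*(ω, ω) ≥ 0` for all points `p` and all nonzero
`ω` in the second exterior power of `T_p M` (written as in `PositiveCurvOp`). -/
def NonnegCurvOp (g : RMetric E M) : Prop :=
  ∀ (p : M) (n : ℕ) (u v : Fin n → TangentSpace 𝓘(ℝ, E) p),
    ∑ a, exteriorPower.ιMulti ℝ 2 ![u a, v a] ≠ 0 →
      0 ≤ ∑ a, ∑ b, riemann g p (u a) (v a) (u b) (v b)

theorem GloballyPinched.pinched {g : RMetric E M} {δ : ℝ} (h : GloballyPinched g δ) :
    Pinched g δ :=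
  fun p => ⟨fun u v huv => h.1 p u v huv, fun u v u' v' huv huv' => h.2 p p u v u' v' huv huv'⟩

theorem PositiveCurvOp.nonneg {g : RMetric E M} (h : PositiveCurvOp g) : NonnegCurvOp g :=
  fun p n u v hne => (h p n u v hne).le

end defs

/-- The set of all `δ ∈ (0, 1]` such that every pointwise `δ`-pinched closed (that is, compact)
Riemannian `d`-manifold has positive curvature operator. -/
def closedPinchSet (d : ℕ) : Set ℝ :=
  {δ : ℝ | 0 < δ ∧ δ ≤ 1 ∧ ∀ (M : Type) [TopologicalSpace M] [T2Space M]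
    [SecondCountableTopology M] [CompactSpace M] [ChartedSpace (EuclideanSpace ℝ (Fin d)) M]
    [IsManifold (𝓡 d) ∞ M] (g : RMetric (EuclideanSpace ℝ (Fin d)) M),
    Pinched g δ → PositiveCurvOp g}

/-- The set of all `δ ∈ (0, 1]` such that every globally `δ`-pinched Riemannian manifold which is
homeomorphic to the `d`-dimensional sphere has nonnegative curvature operator. -/
def spherePinchSet (d : ℕ) : Set ℝ :=
  {δ : ℝ | 0 < δ ∧ δ ≤ 1 ∧ ∀ (M : Type) [TopologicalSpace M]
    [ChartedSpace (EuclideanSpace ℝ (Fin d)) M] [IsManifold (𝓡 d) ∞ M]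
    (g : RMetric (EuclideanSpace ℝ (Fin d)) M),
    Nonempty (M ≃ₜ Metric.sphere (0 : EuclideanSpace ℝ (Fin (d + 1))) 1) →
    GloballyPinched g δ → NonnegCurvOp g}

theorem pinch_sub_closed (d : ℕ) : pinchSet d ⊆ closedPinchSet d := by
  rintro δ ⟨h0, h1, H⟩
  refine ⟨h0, h1, ?_⟩
  intro M _ _ _ _ _ _ g hg
  exact H M g hg

theorem closed_sub_sphere (d : ℕ) : closedPinchSet d ⊆ spherePinchSet d := by
  rintro δ ⟨h0, h1, H⟩
  refine ⟨h0, h1, ?_⟩
  intro M _ _ _ g hM hg
  obtain ⟨e⟩ := hM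
  haveI : T2Space M := e.symm.t2Space
  haveI : SecondCountableTopology M := e.secondCountableTopology
  haveI : CompactSpace M := e.symm.compactSpace
  exact PositiveCurvOp.nonneg (H M g hg.pinched)

/-- The lower bound. -/
theorem sphere_lower {d : ℕ} {δ : ℝ} (hd : 4 ≤ d) (h : δ ∈ spherePinchSet d) :
    (2 * ((d / 2 : ℕ) : ℝ) - 2) / (2 * ((d / 2 : ℕ) : ℝ) + 1) ≤ δ := by
  by_contra hcon
  push Not at hcon
  obtain ⟨hδ0, hδ1, H⟩ := h
  have hd2 : (2:ℝ) ≤ ((d / 2 : ℕ) : ℝ) := by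
    have : 2 ≤ d / 2 := by omega
    exact_mod_cast this
  set p : ℝ := ((d / 2 : ℕ) : ℝ) with hp
  have hk : (0:ℝ) < 2 * p + 1 := by linarith
  set C : ℝ := (2 * p - 2) / (2 * p + 1) with hC
  set D : ℝ := C - δ with hD
  have hD0 : 0 < D := by rw [hD]; linarith
  set c : ℝ := 4 / (2 * p + 1) + D / 3 with hc
  have hC1 : C = 1 - 3 * (1 / (2 * p + 1)) := by
    rw [hC]
    field_simp
    ring
  have hc4 : c = 4 * (1 / (2 * p + 1)) + D / 3 := by rw [hc]; ring
  have hinv0 : 0 < 1 / (2 * p + 1) := by positivity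
  have hinv1 : 1 / (2 * p + 1) ≤ 1 / 5 := one_div_le_one_div_of_le (by norm_num) (by linarith)
  set γ : ℝ := 4 - 3 * c - 4 * δ with hγ
  have hγD : γ = 3 * D := by
    have : δ = C - D := by rw [hD]; ring
    rw [hγ, this, hc4, hC1]
    ring
  have hγ0 : 0 < γ := by rw [hγD]; linarith
  have hDle : D ≤ C := by rw [hD]; linarith
  have hc0 : 0 ≤ c := by rw [hc4]; positivity
  have hc1 : c ≤ 1 := by rw [hc4]; linarith
  have hγ4 : γ ≤ 4 := by rw [hγ]; linarith
  obtain ⟨f, f₁, f₂, fsm, fd1, fd2, ff0, ff1, ⟨t₀, ht₀, ft₀⟩, fz, fb1, fb2⟩ :=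
    exists_cutoff (ε := γ / 30000) (t₁ := γ / 30000) (by positivity) (by positivity)
  have hcut : Cut c (γ / 30000) f f₁ f₂ :=
    ⟨hc0, hc1, by linarith, fsm, fd1, fd2, ff0, ff1, fb1, fb2⟩
  have hcut' : Cut' c (γ / 30000) f := ⟨hc0, fsm, ff0, by positivity, fz⟩
  have hf0 : f 0 = 1 := ft₀ 0 ht₀.le
  set τ : ℝ := γ / 30000 with hτ
  have hτ0 : 0 < τ := by rw [hτ]; positivity
  have hτ8 : τ ≤ 1 / 8 := by rw [hτ]; linarith
  obtain ⟨n1, n2⟩ := num_pinch (q := τ) (ε := τ) hδ0 hδ1 hc0 hτ0.le hτ0.le hγ hγ0 le_rfl le_rfl hτ8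
  set η : ℝ := 9252 * τ + 22 * τ with hη
  set Lo : ℝ := (4 - 3 * c - η) / (1 + 2 * τ) with hLo
  set Hi : ℝ := (4 + η) / (1 - 4 * τ) with hHi
  have hη0 : 0 ≤ η := by positivity
  have hLo0 : 0 < Lo := div_pos n1 (by linarith)
  have hLo4 : Lo ≤ 4 := by
    rw [hLo, div_le_iff₀ (by linarith)]
    linarith
  have hHi4 : 4 ≤ Hi := by
    rw [hHi, le_div_iff₀ (by linarith)]
    linarith
  -- bounds for the sectional curvature
  have hb : ∀ (P : SM d) (u v : EE d), LinearIndependent ℝ ![u, v] →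
      Lo ≤ sectional (gS (d := d) hcut') P u v ∧ sectional (gS (d := d) hcut') P u v ≤ Hi := by
    intro P u v huv
    induction P using SM.ind with
    | h1 =>
      rw [sec_inf hcut' huv]
      exact ⟨hLo4, hHi4⟩
    | h2 y =>
      rw [sec_pt hcut']
      rcases le_or_gt (‖y‖ ^ 2) τ with hy | hy
      · have hy8 : ‖y‖ ^ 2 ≤ 1 / 8 := hy.trans hτ8
        have hq0 : 0 ≤ ‖y‖ ^ 2 := sq_nonneg _
        have hle : 9252 * ‖y‖ ^ 2 + 22 * τ ≤ η := by rw [hη]; linarith
        have h0 : 0 < 4 - 3 * c - (9252 * ‖y‖ ^ 2 + 22 * τ) := by linarith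
        obtain ⟨b1, b2⟩ := sec_near hcut hy8 huv h0
        refine ⟨le_trans ?_ b1, le_trans b2 ?_⟩
        · rw [hLo]
          apply div_le_div₀ h0.le (by linarith) (by linarith) (by linarith)
        · rw [hHi]
          apply div_le_div₀ (by linarith) (by linarith) (by linarith) (by linarith)
      · rw [sec_far fz hy huv]
        exact ⟨hLo4, hHi4⟩
  have hpin : GloballyPinched (gS (d := d) hcut') δ := by
    constructor
    · intro P u v huv
      exact lt_of_lt_of_le hLo0 (hb P u v huv).1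
    · intro P P' u v u' v' huv huv'
      refine le_trans ?_ (hb P u v huv).1
      refine le_trans ?_ n2
      exact mul_le_mul_of_nonneg_left (hb P' u' v' huv').2 hδ0.le
  have hneg := H (SM d) (gS (d := d) hcut') ⟨toSphere d⟩ hpin (pt 0) (d / 2) (fun i => ee i)
    (fun i => ff i) (sum_wedge_ne (by omega))
  have hsum := sum_origin (d := d) hcut hf0
  simp only [riem_pt hcut'] at hneg
  rw [hsum, ← hp] at hneg
  have h9 : p * (4 - c * (2 * p + 1)) = - (p * (D / 3) * (2 * p + 1)) := by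
    rw [hc]
    field_simp
    ring
  rw [h9] at hneg
  have h10 : 0 < p * (D / 3) * (2 * p + 1) := by positivity
  linarith

end Pool.Agent.CCM
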